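import Pool.Agent.TH624.BS.Open

namespace Pool.Agent.TH624.BS

open Filter Topology

/-- The coordinate projection matrices. -/
def A0 (d : ℕ) {n r : ℕ} (h : r ≤ n) : Fin d → Fin r → Fin n → ℂ :=
  fun _ q l => if l = Fin.castLE h q then 1 else 0

theorem act_A0 {d n r : ℕ} (h : r ≤ n) (T : Tensor d n) (z : Fin d → Fin r) :
    act (A0 d h) T z = T (fun t => Fin.castLE h (z t)) := by
  classical
  unfold act A0
  rw [Finset.sum_eq_single (fun t => Fin.castLE h (z t))]
  · simp
  · intro j _ hj
    obtain ⟨t, ht⟩ : ∃ t, j t ≠ Fin.castLE h (z t) := by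
      by_contra hcon
      push Not at hcon
      exact hj (funext hcon)
    rw [Finset.prod_eq_zero (Finset.mem_univ t) (by rw [if_neg ht]), zero_mul]
  · intro h'; exact absurd (Finset.mem_univ _) h'

/-- Elementary direction: row `q` of the `t`-th matrix, column `l`. -/
noncomputable def dir (d : ℕ) {n r : ℕ} (t : Fin d) (q : Fin r) (l : Fin n) :
    Fin d → Fin r → Fin n → ℂ := by
  classical
  exact fun t' q' l' => if t' = t ∧ q' = q ∧ l' = l then 1 else 0

theorem act_dir {d n r : ℕ} (h : r ≤ n) (T : Tensor d n) (t : Fin d) (q : Fin r) (l : Fin n)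
    (s : ℂ) (z : Fin d → Fin r) :
    act (A0 d h + s • dir d t q l) T z = act (A0 d h) T z
      + s * (if z t = q then T (Function.update (fun t => Fin.castLE h (z t)) t l) else 0) := by
  classical
  have key : ∀ j : Fin d → Fin n, (∏ u, (A0 d h + s • dir d t q l) u (z u) (j u))
      = (∏ u, A0 d h u (z u) (j u)) + s * (if z t = q then
          (if j = Function.update (fun t => Fin.castLE h (z t)) t l then 1 else 0) else 0) := by
    intro j
    rw [← Finset.mul_prod_erase Finset.univ _ (Finset.mem_univ t),
      ← Finset.mul_prod_erase Finset.univ (fun u => A0 d h u (z u) (j u)) (Finset.mem_univ t)]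
    have e1 : ∏ u ∈ Finset.univ.erase t, (A0 d h + s • dir d t q l) u (z u) (j u)
        = ∏ u ∈ Finset.univ.erase t, A0 d h u (z u) (j u) := by
      refine Finset.prod_congr rfl fun u hu => ?_
      have hu' : u ≠ t := Finset.ne_of_mem_erase hu
      simp [dir, hu']
    rw [e1]
    have e2 : (A0 d h + s • dir d t q l) t (z t) (j t)
        = A0 d h t (z t) (j t) + s * (if z t = q ∧ j t = l then 1 else 0) := by
      simp [dir]
    rw [e2, add_mul]
    congr 1
    rw [mul_assoc]
    congr 1
    by_cases hq : z t = q
    · rw [if_pos hq]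
      by_cases hj : j = Function.update (fun t => Fin.castLE h (z t)) t l
      · rw [if_pos hj]
        have hl : j t = l := by rw [hj]; simp
        rw [if_pos ⟨hq, hl⟩, one_mul]
        refine Finset.prod_eq_one fun u hu => ?_
        have hu' : u ≠ t := Finset.ne_of_mem_erase hu
        have : j u = Fin.castLE h (z u) := by rw [hj]; simp [hu']
        simp [A0, this]
      · rw [if_neg hj]
        by_cases hl : j t = l
        · obtain ⟨u, hu, hju⟩ : ∃ u, u ≠ t ∧ j u ≠ Fin.castLE h (z u) := by
            by_contra hcon
            push Not at hcon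
            apply hj
            funext u
            by_cases hut : u = t
            · subst hut; simp [hl]
            · simp [hut, hcon u hut]
          rw [Finset.prod_eq_zero (Finset.mem_erase.2 ⟨hu, Finset.mem_univ u⟩)
            (by simp [A0, hju]), mul_zero]
        · rw [if_neg (fun h => hl h.2), zero_mul]
    · rw [if_neg hq, if_neg (fun h => hq h.1), zero_mul]
  unfold act
  simp only [key, add_mul, Finset.sum_add_distrib]
  congr 1
  rw [← Finset.sum_congr rfl (fun j _ => (mul_assoc s _ (T j)).symm), ← Finset.mul_sum]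
  congr 1
  by_cases hq : z t = q
  · simp [hq]
  · simp [hq]

/-- Main criterion. -/
theorem criterion {d n r : ℕ} (hd : 0 < d) (hrn : r ≤ n)
    (Zp : (Fin d → Fin r) → Prop)
    (w : Fin d → Fin r → ℤ)
    (hZ : ∀ z, Zp z → ¬ ∀ s t, z s = z t)
    (hw0 : ∀ q : Fin r, ∑ t, w t q = 0)
    (hw1 : ∀ z : Fin d → Fin r, ¬ Zp z → (¬ ∀ s t, z s = z t) → 1 ≤ ∑ t, w t (z t))
    (t : {z : Fin d → Fin r // Zp z} → Fin d) (l : {z : Fin d → Fin r // Zp z} → Fin n)
    (hl : ∀ z, r ≤ (l z : ℕ))
    (hcode : ∀ z z' : {z : Fin d → Fin r // Zp z}, t z = t z' → l z = l z' →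
      ∀ s, s ≠ t z → z.1 s = z'.1 s) :
    ∃ U : Set (Tensor d n), IsOpen U ∧ U.Nonempty ∧ ∀ T ∈ U, Degenerates T (unitTensor d r) := by
  classical
  let emb : (Fin d → Fin r) → (Fin d → Fin n) := fun z u => Fin.castLE hrn (z u)
  have hemb : Function.Injective emb := by
    intro a b hab
    funext u
    exact Fin.castLE_injective hrn (congrFun hab u)
  let T0 : Tensor d n := fun j =>
    if (∃ z : Fin d → Fin r, (∀ s t, z s = z t) ∧ j = emb z) ∨
      (∃ z : {z : Fin d → Fin r // Zp z}, j = Function.update (emb z.1) (t z) (l z)) then 1 else 0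
  -- values of `T0` on the core
  have hcore : ∀ z : Fin d → Fin r, T0 (emb z) = if (∀ s t, z s = z t) then 1 else 0 := by
    intro z
    by_cases hz : ∀ s t, z s = z t
    · rw [if_pos hz]
      exact if_pos (Or.inl ⟨z, hz, rfl⟩)
    · rw [if_neg hz]
      refine if_neg ?_
      rintro (⟨z', hz', he⟩ | ⟨z', he⟩)
      · rw [hemb he] at hz; exact hz hz'
      · have h1 := congrFun he (t z')
        rw [Function.update_self] at h1
        have h2 := hl z'
        rw [← h1] at h2
        have h3 : ((emb z (t z') : Fin n) : ℕ) = (z (t z') : ℕ) := rfl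
        rw [h3] at h2
        exact absurd (z (t z')).2 (not_lt.2 h2)
  have hout : ∀ z z' : {z : Fin d → Fin r // Zp z}, z'.1 (t z) = z.1 (t z) →
      T0 (Function.update (emb z'.1) (t z) (l z)) = if z' = z then 1 else 0 := by
    intro z z' hzz
    by_cases he : z' = z
    · rw [if_pos he, he]
      exact if_pos (Or.inr ⟨z, rfl⟩)
    · rw [if_neg he]
      refine if_neg ?_
      rintro (⟨z'', hz'', h⟩ | ⟨z'', h⟩)
      · have h1 := congrFun h (t z)
        rw [Function.update_self] at h1
        have h2 := hl z
        rw [h1] at h2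
        have h3 : ((emb z'' (t z) : Fin n) : ℕ) = (z'' (t z) : ℕ) := rfl
        rw [h3] at h2
        exact absurd (z'' (t z)).2 (not_lt.2 h2)
      · have htt : t z'' = t z := by
          by_contra hne
          have h1 := congrFun h (t z)
          rw [Function.update_self, Function.update_of_ne (Ne.symm hne)] at h1
          have h2 := hl z
          rw [h1] at h2
          have h3 : ((emb z''.1 (t z) : Fin n) : ℕ) = (z''.1 (t z) : ℕ) := rfl
          rw [h3] at h2
          exact absurd (z''.1 (t z)).2 (not_lt.2 h2)
        have hll : l z'' = l z := by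
          have h1 := congrFun h (t z)
          rw [Function.update_self, htt, Function.update_self] at h1
          exact h1.symm
        have hagree := hcode z'' z htt hll
        apply he
        apply Subtype.ext
        funext s
        by_cases hs : s = t z
        · rw [hs, hzz]
        · have h1 := congrFun h s
          rw [Function.update_of_ne hs, Function.update_of_ne (by rw [htt]; exact hs)] at h1
          have h2 : z'.1 s = z''.1 s := Fin.castLE_injective hrn h1
          rw [h2]
          exact hagree s (by rw [htt]; exact hs)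
  obtain ⟨U, hUo, hUn, hU⟩ := open_of_directions Zp (A0 d hrn) T0
    (fun z => dir d (t z) (z.1 (t z)) (l z))
    (by
      intro z hz
      rw [act_A0]
      show T0 (emb z) = 0
      rw [hcore, if_neg (hZ z hz)])
    (by
      intro q
      rw [act_A0]
      show T0 (emb fun _ => q) ≠ 0
      rw [hcore, if_pos (fun _ _ => rfl)]
      exact one_ne_zero)
    (by
      intro z z' s
      rw [act_dir]
      congr 2
      by_cases hq : z'.1 (t z) = z.1 (t z)
      · rw [if_pos hq]
        exact hout z z' hq
      · rw [if_neg hq, if_neg]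
        intro h
        exact hq (by rw [h]))
  refine ⟨U, hUo, hUn, fun T hT => ?_⟩
  obtain ⟨A, hA0, hA1⟩ := hU T hT
  exact degenerates_of_pattern hd Zp w hw0 hw1 T A (fun z hz _ => hA0 z hz) hA1

end Pool.Agent.TH624.BS
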