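import Mathlib

namespace Pool.Agent.TH624.BS

theorem bern (a d k : ℕ) : a ^ (k + 1) + (k + 1) * d * a ^ k ≤ (a + d) ^ (k + 1) := by
  induction k with
  | zero => simp
  | succ k ih =>
    have h1 : (a + d) ^ (k + 1 + 1) = (a + d) * (a + d) ^ (k + 1) := by ring
    rw [h1]
    refine le_trans ?_ (Nat.mul_le_mul_left _ ih)
    have h2 : (a + d) * (a ^ (k + 1) + (k + 1) * d * a ^ k)
        = a ^ (k + 1 + 1) + (k + 1 + 1) * d * a ^ (k + 1) + (k + 1) * d * d * a ^ k := by ring
    rw [h2]
    exact Nat.le_add_right _ _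

theorem window (d t k a L : ℕ) (hL : L ≤ d) :
    ∑ i ∈ Finset.range L, (if (a + i) % d = t then (a + i + 1) ^ k else 0) ≤ (a + L) ^ k := by
  rw [← Finset.sum_filter]
  have hcard : (Finset.filter (fun i => (a + i) % d = t) (Finset.range L)).card ≤ 1 := by
    rw [Finset.card_le_one]
    intro i hi j hj
    simp only [Finset.mem_filter, Finset.mem_range] at hi hj
    have h1 : a + i ≡ a + j [MOD d] := hi.2.trans hj.2.symm
    have h2 : i ≡ j [MOD d] := Nat.ModEq.add_left_cancel' a h1
    have h3 : i % d = j % d := h2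
    rwa [Nat.mod_eq_of_lt (by omega), Nat.mod_eq_of_lt (by omega)] at h3
  calc ∑ i ∈ Finset.filter (fun i => (a + i) % d = t) (Finset.range L), (a + i + 1) ^ k
      ≤ (Finset.filter (fun i => (a + i) % d = t) (Finset.range L)).card • (a + L) ^ k := by
        refine Finset.sum_le_card_nsmul _ _ _ fun i hi => ?_
        simp only [Finset.mem_filter, Finset.mem_range] at hi
        exact Nat.pow_le_pow_left (by omega) k
    _ ≤ 1 • (a + L) ^ k := Nat.mul_le_mul_right _ hcard
    _ = (a + L) ^ k := one_smul _ _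

theorem cnt (d t k : ℕ) (hd : 0 < d) (r : ℕ) :
    d * (k + 1) * ∑ M ∈ Finset.range r, (if M % d = t then (M + 1) ^ k else 0)
      ≤ (r + d) ^ (k + 1) := by
  induction r using Nat.strong_induction_on with
  | _ r ih =>
    by_cases hr : r < d
    · have h1 := window d t k 0 r hr.le
      simp only [zero_add] at h1
      have h2 := bern r d k
      calc d * (k + 1) * ∑ M ∈ Finset.range r, (if M % d = t then (M + 1) ^ k else 0)
          ≤ d * (k + 1) * r ^ k := Nat.mul_le_mul_left _ h1
        _ = (k + 1) * d * r ^ k := by ring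
        _ ≤ (r + d) ^ (k + 1) := le_trans (Nat.le_add_left _ _) h2
    · push Not at hr
      obtain ⟨r', rfl⟩ := Nat.exists_eq_add_of_le' hr
      rw [Finset.sum_range_add]
      have h1 := ih r' (by omega)
      have h2 := window d t k r' d le_rfl
      have h3 := bern (r' + d) d k
      rw [mul_add]
      calc d * (k + 1) * ∑ M ∈ Finset.range r', (if M % d = t then (M + 1) ^ k else 0)
            + d * (k + 1) * ∑ i ∈ Finset.range d, (if (r' + i) % d = t then (r' + i + 1) ^ k else 0)
          ≤ (r' + d) ^ (k + 1) + d * (k + 1) * (r' + d) ^ k :=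
            Nat.add_le_add h1 (Nat.mul_le_mul_left _ h2)
        _ = (r' + d) ^ (k + 1) + (k + 1) * d * (r' + d) ^ k := by ring
        _ ≤ (r' + d + d) ^ (k + 1) := h3

end Pool.Agent.TH624.BS
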