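import Mathlib

/-!
Definitions for the border subrank of a tensor with `d` legs of dimension `n` over `ℂ`.
-/

namespace Pool.Agent.TH624.BS

/-- Tensors in `ℂ^n ⊗ ... ⊗ ℂ^n` (`d` factors), written by their coordinates. -/
abbrev Tensor (d n : ℕ) : Type := (Fin d → Fin n) → ℂ

/-- The tensor `(A_1 ⊗ ... ⊗ A_d) T`, where `A_t : ℂ^n → ℂ^r` is the linear map with matrix
`A t` (row index in `Fin r`, column index in `Fin n`). -/
def act {d n r : ℕ} (A : Fin d → Fin r → Fin n → ℂ) (T : Tensor d n) : Tensor d r :=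
  fun z => ∑ j : Fin d → Fin n, (∏ t, A t (z t) (j t)) * T j

/-- `T` restricts to `S`. -/
def Restricts {d n r : ℕ} (T : Tensor d n) (S : Tensor d r) : Prop :=
  ∃ A : Fin d → Fin r → Fin n → ℂ, S = act A T

/-- `T` degenerates to `S`: `S` lies in the closure of the set of tensors to which `T`
restricts. -/
def Degenerates {d n r : ℕ} (T : Tensor d n) (S : Tensor d r) : Prop :=
  S ∈ closure {S' : Tensor d r | Restricts T S'}

/-- The unit tensor `∑ e_i ⊗ ... ⊗ e_i` in `(ℂ^q)^{⊗ d}`. -/
def unitTensor (d q : ℕ) : Tensor d q :=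
  fun z => if ∀ s t, z s = z t then 1 else 0

/-- `q` is the border subrank of `T`. -/
def IsBorderSubrank {d n : ℕ} (T : Tensor d n) (q : ℕ) : Prop :=
  IsGreatest {p : ℕ | Degenerates T (unitTensor d p)} q

/-- `q` is the generic border subrank: there is a nonzero polynomial `F` in the coordinates
such that every `T` with `F(T) ≠ 0` has border subrank `q`. -/
def IsGenericBorderSubrank (d n q : ℕ) : Prop :=
  ∃ F : MvPolynomial (Fin d → Fin n) ℂ, F ≠ 0 ∧
    ∀ T : Tensor d n, MvPolynomial.eval T F ≠ 0 → IsBorderSubrank T q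

end Pool.Agent.TH624.BS
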