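import Pool.Agent.TH624.BS.Defs

namespace Pool.Agent.TH624.BS

open Filter Topology

theorem prod_zpow_eq {ι : Type*} (s : Finset ι) (ε : ℂ) (hε : ε ≠ 0) (f : ι → ℤ) :
    ∏ t ∈ s, ε ^ (f t) = ε ^ (∑ t ∈ s, f t) := by
  classical
  induction s using Finset.induction_on with
  | empty => simp
  | insert a s ha ih => rw [Finset.prod_insert ha, Finset.sum_insert ha, zpow_add₀ hε, ih]

/-- A tensor `T` with a restriction that vanishes on `Z` and not on the diagonal degenerates to
the unit tensor, when the other positions have positive weight. -/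
theorem degenerates_of_pattern {d n r : ℕ} (hd : 0 < d)
    (Zp : (Fin d → Fin r) → Prop) (w : Fin d → Fin r → ℤ)
    (hw0 : ∀ q : Fin r, ∑ t, w t q = 0)
    (hw1 : ∀ z : Fin d → Fin r, ¬ Zp z → (¬ ∀ s t, z s = z t) → 1 ≤ ∑ t, w t (z t))
    (T : Tensor d n) (A : Fin d → Fin r → Fin n → ℂ)
    (h0 : ∀ z, Zp z → (¬ ∀ s t, z s = z t) → act A T z = 0)
    (h1 : ∀ q : Fin r, act A T (fun _ => q) ≠ 0) :
    Degenerates T (unitTensor d r) := by
  classical
  set t0 : Fin d := ⟨0, hd⟩ with ht0
  -- the scaled maps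
  let B : ℂ → Fin d → Fin r → Fin n → ℂ := fun ε t q j =>
    (ε ^ (w t q) * (if t = t0 then (act A T (fun _ => q))⁻¹ else 1)) * A t q j
  have hB : ∀ ε : ℂ, ∀ z, act (B ε) T z
      = (∏ t, ε ^ (w t (z t))) * ((act A T (fun _ => z t0))⁻¹ * act A T z) := by
    intro ε z
    have e1 : ∀ j : Fin d → Fin n, (∏ t, B ε t (z t) (j t))
        = (∏ t, ε ^ (w t (z t))) * (act A T (fun _ => z t0))⁻¹ * ∏ t, A t (z t) (j t) := by
      intro j
      simp only [B, Finset.prod_mul_distrib]
      congr 1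
      congr 1
      rw [Finset.prod_eq_single t0]
      · simp
      · intro t _ ht; simp [ht]
      · intro h; exact absurd (Finset.mem_univ _) h
    have e2 : act (B ε) T z = ∑ j : Fin d → Fin n, (∏ t, B ε t (z t) (j t)) * T j := rfl
    have e3 : act A T z = ∑ j : Fin d → Fin n, (∏ t, A t (z t) (j t)) * T j := rfl
    rw [e2, e3, Finset.mul_sum, Finset.mul_sum]
    refine Finset.sum_congr rfl fun j _ => ?_
    rw [e1]
    ring
  have hlim : Tendsto (fun ε : ℂ => act (B ε) T) (𝓝[≠] 0) (𝓝 (unitTensor d r)) := by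
    rw [tendsto_pi_nhds]
    intro z
    have hne : ∀ᶠ ε : ℂ in 𝓝[≠] 0, ε ≠ 0 := eventually_mem_nhdsWithin
    have hz : (fun ε : ℂ => act (B ε) T z) =ᶠ[𝓝[≠] 0] fun ε =>
        ε ^ (∑ t, w t (z t)) * ((act A T (fun _ => z t0))⁻¹ * act A T z) := by
      filter_upwards [hne] with ε hε
      rw [hB, prod_zpow_eq _ _ hε]
    refine Tendsto.congr' hz.symm ?_
    by_cases hdiag : ∀ s t, z s = z t
    · have hzc : z = fun _ => z t0 := by
        funext t; exact hdiag t t0
      have hs : ∑ t, w t (z t) = 0 := by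
        rw [← hw0 (z t0)]
        exact Finset.sum_congr rfl fun t _ => by rw [hdiag t t0]
      have hu : unitTensor d r z = 1 := if_pos hdiag
      have hv : (act A T (fun _ => z t0))⁻¹ * act A T z = 1 := by
        rw [← hzc]
        apply inv_mul_cancel₀
        rw [hzc]; exact h1 _
      rw [hs, hu, hv]
      simp
    · have hu : unitTensor d r z = 0 := if_neg hdiag
      rw [hu]
      by_cases hZ : Zp z
      · rw [h0 z hZ hdiag]; simp
      · have hpos := hw1 z hZ hdiag
        obtain ⟨m, hm⟩ : ∃ m : ℕ, ∑ t, w t (z t) = ((m + 1 : ℕ) : ℤ) := by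
          refine ⟨(∑ t, w t (z t) - 1).toNat, ?_⟩
          push_cast
          rw [Int.toNat_of_nonneg (by linarith)]
          ring
        rw [hm]
        have hc : Tendsto (fun ε : ℂ => ε ^ ((m + 1 : ℕ) : ℤ)) (𝓝[≠] 0) (𝓝 0) := by
          have : Tendsto (fun ε : ℂ => ε ^ (m + 1)) (𝓝 0) (𝓝 ((0 : ℂ) ^ (m + 1))) :=
            (continuous_pow (m + 1)).tendsto 0
          rw [zero_pow (Nat.succ_ne_zero m)] at this
          simpa only [zpow_natCast] using this.mono_left nhdsWithin_le_nhds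
        simpa using hc.mul_const ((act A T (fun _ => z t0))⁻¹ * act A T z)
  refine mem_closure_of_tendsto hlim ?_
  exact Eventually.of_forall fun ε => ⟨B ε, rfl⟩

end Pool.Agent.TH624.BS
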