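import Pool.Agent.TH624.BS.Pattern

namespace Pool.Agent.TH624.BS

open MvPolynomial

/-- A polynomial that vanishes on a nonempty open set is zero. -/
theorem eq_zero_of_open {d n : ℕ} (U : Set (Tensor d n)) (hU : IsOpen U) (hne : U.Nonempty)
    (F : MvPolynomial (Fin d → Fin n) ℂ) (hF : ∀ T ∈ U, eval T F = 0) : F = 0 := by
  obtain ⟨T0, hT0⟩ := hne
  obtain ⟨ε, hε, hball⟩ := Metric.isOpen_iff.1 hU T0 hT0
  refine funext_set (fun j => Metric.ball (T0 j) ε) (fun j => ?_) fun T hT => ?_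
  · apply infinite_of_mem_nhds (T0 j)
    exact Metric.ball_mem_nhds _ hε
  · rw [map_zero]
    apply hF
    apply hball
    rw [Metric.mem_ball, dist_pi_lt_iff hε]
    intro j
    exact hT j (Set.mem_univ j)

/-- Counting condition. -/
theorem count_cond (d n r : ℕ) (hd : 3 ≤ d) (h : (r + 2 * d) ^ (d - 1) ≤ d * (d - 1) * n) :
    r ≤ n ∧ ∀ t : Fin d, r + ∑ M ∈ Finset.range r,
      (if M % d = (t : ℕ) then (M + 1) ^ (d - 2) else 0) ≤ n := by
  obtain ⟨k, rfl⟩ : ∃ k, d = k + 3 := ⟨d - 3, by omega⟩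
  have e1 : k + 3 - 1 = k + 1 + 1 := by omega
  have e2 : k + 3 - 2 = k + 1 := by omega
  rw [e1] at h
  rw [e2]
  set D := k + 3 with hD
  have key : ∀ s : ℕ, D * (k + 1 + 1) * s ≤ (r + D) ^ (k + 1 + 1) → r + s ≤ n := by
    intro s hs
    have h1 := bern (r + D) D (k + 1)
    have h2 : r + D + D = r + 2 * D := by ring
    rw [h2] at h1
    have h3 : r ≤ (r + D) ^ (k + 1) :=
      le_trans (Nat.le_add_right r D) (Nat.le_self_pow (Nat.succ_ne_zero k) _)
    have h4 : D * (k + 1 + 1) * (r + s) ≤ D * (k + 1 + 1) * n := by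
      calc D * (k + 1 + 1) * (r + s) = (k + 1 + 1) * D * r + D * (k + 1 + 1) * s := by ring
        _ ≤ (k + 1 + 1) * D * (r + D) ^ (k + 1) + (r + D) ^ (k + 1 + 1) :=
            Nat.add_le_add (Nat.mul_le_mul_left _ h3) hs
        _ = (r + D) ^ (k + 1 + 1) + (k + 1 + 1) * D * (r + D) ^ (k + 1) := by ring
        _ ≤ (r + 2 * D) ^ (k + 1 + 1) := h1
        _ ≤ D * (k + 1 + 1) * n := h
    exact Nat.le_of_mul_le_mul_left h4 (by positivity)
  refine ⟨?_, fun t => ?_⟩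
  · have := key 0 (by simp)
    simpa using this
  · exact key _ (cnt D t (k + 1) (by omega) r)

theorem lower (d n r : ℕ) (hd : 3 ≤ d) (h : (r + 2 * d) ^ (d - 1) ≤ d * (d - 1) * n) :
    (∃ U : Set (Tensor d n), IsOpen U ∧ U.Nonempty ∧ ∀ T ∈ U, Degenerates T (unitTensor d r)) ∧
    (∀ F : MvPolynomial (Fin d → Fin n) ℂ,
      (∀ T : Tensor d n, Degenerates T (unitTensor d r) → eval T F = 0) → F = 0) ∧
    (∀ q : ℕ, IsGenericBorderSubrank d n q → r ≤ q) := by
  obtain ⟨hrn, hc⟩ := count_cond d n r hd h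
  obtain ⟨U, hUo, hUn, hU⟩ := exists_open d n r (by omega) hrn hc
  refine ⟨⟨U, hUo, hUn, hU⟩, fun F hF => eq_zero_of_open U hUo hUn F fun T hT => hF T (hU T hT),
    fun q hq => ?_⟩
  obtain ⟨F, hF0, hF⟩ := hq
  by_contra hlt
  apply hF0
  refine eq_zero_of_open U hUo hUn F fun T hT => ?_
  by_contra hne
  exact hlt ((hF T hne).2 (hU T hT))

end Pool.Agent.TH624.BS
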