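import Pool.Agent.TH624.BS.Degen

namespace Pool.Agent.TH624.BS

open Filter Topology

theorem contDiff_act {d n r : ℕ} (z : Fin d → Fin r) :
    ContDiff ℂ 1 (fun p : (Fin d → Fin r → Fin n → ℂ) × Tensor d n => act p.1 p.2 z) := by
  unfold act
  refine ContDiff.sum fun j _ => ContDiff.mul (contDiff_prod fun t _ => ?_) ?_
  · fun_prop
  · fun_prop

/-- The implicit function argument: if at `(A0, T0)` the positions `z` with `Zp z` vanish, and
each of them can be moved alone by moving `A0`, then near `T0` the positions can be kept zero. -/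
theorem open_of_directions {d n r : ℕ}
    (Zp : (Fin d → Fin r) → Prop)
    (A0 : Fin d → Fin r → Fin n → ℂ) (T0 : Tensor d n)
    (X : {z : Fin d → Fin r // Zp z} → Fin d → Fin r → Fin n → ℂ)
    (h0 : ∀ z, Zp z → act A0 T0 z = 0) (h1 : ∀ q : Fin r, act A0 T0 (fun _ => q) ≠ 0)
    (hX : ∀ z z' : {z : Fin d → Fin r // Zp z}, ∀ s : ℂ,
      act (A0 + s • X z) T0 z'.1 = act A0 T0 z'.1 + s * (if z' = z then 1 else 0)) :
    ∃ U : Set (Tensor d n), IsOpen U ∧ U.Nonempty ∧ ∀ T ∈ U,
      ∃ A : Fin d → Fin r → Fin n → ℂ, (∀ z, Zp z → act A T z = 0) ∧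
        ∀ q : Fin r, act A T (fun _ => q) ≠ 0 := by
  classical
  let E := Fin d → Fin r → Fin n → ℂ
  let Z := {z : Fin d → Fin r // Zp z}
  let g : E × Tensor d n → (Z → ℂ) := fun p z => act p.1 p.2 z.1
  have hg : ContDiff ℂ 1 g := contDiff_pi.2 fun z => contDiff_act z.1
  let p0 : E × Tensor d n := (A0, T0)
  have hgd : HasStrictFDerivAt g (fderiv ℂ g p0) p0 :=
    hg.contDiffAt.hasStrictFDerivAt (by norm_num)
  set g' := fderiv ℂ g p0 with hg'
  have hG : HasStrictFDerivAt (fun p : E × Tensor d n => (g p, p.2))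
      (g'.prod (ContinuousLinearMap.snd ℂ E (Tensor d n))) p0 :=
    hgd.prodMk hasStrictFDerivAt_snd
  -- the derivative in the direction `X z`
  have hdir : ∀ z : Z, g' (X z, 0) = Pi.single z 1 := by
    intro z
    have e1 : HasDerivAt (fun s : ℂ => p0 + s • ((X z, 0) : E × Tensor d n)) (X z, 0) 0 := by
      have := ((hasDerivAt_id (0 : ℂ)).smul_const ((X z, 0) : E × Tensor d n)).const_add p0
      simpa using this
    have e2 : HasDerivAt (fun s : ℂ => g (p0 + s • ((X z, 0) : E × Tensor d n))) (g' (X z, 0)) 0 := by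
      have hh : HasFDerivAt g g' (p0 + (0 : ℂ) • ((X z, 0) : E × Tensor d n)) := by
        simpa using hgd.hasFDerivAt
      exact hh.comp_hasDerivAt (0 : ℂ) e1
    have e3 : (fun s : ℂ => g (p0 + s • ((X z, 0) : E × Tensor d n)))
        = fun s => g p0 + s • (Pi.single z 1 : Z → ℂ) := by
      funext s z'
      have := hX z z' s
      simp only [g, p0, Prod.fst_add, Prod.smul_fst, Prod.snd_add, Prod.smul_snd, smul_zero,
        add_zero, Pi.add_apply, Pi.smul_apply, smul_eq_mul]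
      rw [this, Pi.single_apply]
    have e4 : HasDerivAt (fun s : ℂ => g p0 + s • (Pi.single z 1 : Z → ℂ)) (Pi.single z 1) 0 := by
      have := ((hasDerivAt_id (0 : ℂ)).smul_const (Pi.single z 1 : Z → ℂ)).const_add (g p0)
      simpa using this
    rw [e3] at e2
    exact e2.unique e4
  have hsurj0 : ∀ v : Z → ℂ, ∃ Y : E, g' (Y, 0) = v := by
    intro v
    refine ⟨∑ z, v z • X z, ?_⟩
    have : ((∑ z, v z • X z, 0) : E × Tensor d n) = ∑ z, v z • ((X z, 0) : E × Tensor d n) := by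
      ext1
      · simp [Prod.fst_sum]
      · simp [Prod.snd_sum]
    rw [this, map_sum]
    simp only [map_smul, hdir]
    funext z'
    simp only [Finset.sum_apply, Pi.smul_apply, Pi.single_apply, smul_eq_mul]
    rw [Finset.sum_eq_single z']
    · simp
    · intro b _ hb
      rw [if_neg (fun h => hb h.symm), mul_zero]
    · intro h; exact absurd (Finset.mem_univ _) h
  have hrange : (g'.prod (ContinuousLinearMap.snd ℂ E (Tensor d n))).range = ⊤ := by
    rw [eq_top_iff]
    rintro ⟨v, τ⟩ -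
    obtain ⟨Y, hY⟩ := hsurj0 (v - g' (0, τ))
    refine ⟨(Y, τ), ?_⟩
    have : ((Y, τ) : E × Tensor d n) = (Y, 0) + (0, τ) := by simp
    show (g' (Y, τ), τ) = (v, τ)
    rw [this, map_add, hY]
    simp
  have hmap := hG.map_nhds_eq_of_surj hrange
  -- good set
  have hcont : Continuous (fun p : E × Tensor d n => fun q : Fin r => act p.1 p.2 (fun _ => q)) :=
    continuous_pi fun q => (contDiff_act (n := n) (fun _ : Fin d => q)).continuous
  have hopen : IsOpen {p : E × Tensor d n | ∀ q : Fin r, act p.1 p.2 (fun _ => q) ≠ 0} := by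
    have : {p : E × Tensor d n | ∀ q : Fin r, act p.1 p.2 (fun _ => q) ≠ 0}
        = ⋂ q : Fin r, {p : E × Tensor d n | act p.1 p.2 (fun _ => q) ≠ 0} := by
      ext p; simp
    rw [this]
    refine isOpen_iInter_of_finite fun q => ?_
    exact isOpen_ne_fun ((contDiff_act (n := n) (fun _ : Fin d => q)).continuous) continuous_const
  have hN : {p : E × Tensor d n | ∀ q : Fin r, act p.1 p.2 (fun _ => q) ≠ 0} ∈ 𝓝 p0 :=
    hopen.mem_nhds h1
  have himg : (fun p : E × Tensor d n => (g p, p.2)) ''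
      {p : E × Tensor d n | ∀ q : Fin r, act p.1 p.2 (fun _ => q) ≠ 0} ∈ 𝓝 (g p0, p0.2) := by
    rw [← hmap]
    exact image_mem_map hN
  have hgp0 : g p0 = 0 := by
    funext z; exact h0 z.1 z.2
  rw [hgp0] at himg
  have hslice : {T : Tensor d n | ((0 : Z → ℂ), T) ∈ (fun p : E × Tensor d n => (g p, p.2)) ''
      {p : E × Tensor d n | ∀ q : Fin r, act p.1 p.2 (fun _ => q) ≠ 0}} ∈ 𝓝 T0 := by
    have hc : ContinuousAt (fun T : Tensor d n => ((0 : Z → ℂ), T)) T0 := by fun_prop
    exact hc.preimage_mem_nhds himg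
  obtain ⟨U, hUsub, hUo, hU0⟩ := mem_nhds_iff.1 hslice
  refine ⟨U, hUo, ⟨T0, hU0⟩, fun T hT => ?_⟩
  obtain ⟨⟨A, T'⟩, hA, hAT⟩ := hUsub hT
  simp only [Prod.mk.injEq] at hAT
  obtain ⟨hA0, rfl⟩ := hAT
  refine ⟨A, fun z hz => ?_, hA⟩
  exact congrFun hA0 ⟨z, hz⟩

end Pool.Agent.TH624.BS
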