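import Pool.Agent.TH624.BS.Base
import Pool.Agent.TH624.BS.Count

namespace Pool.Agent.TH624.BS

/-- The special coordinate of level `q`. -/
def sp (d : ℕ) (hd : 0 < d) (q : ℕ) : Fin d := ⟨(q + 1) % d, Nat.mod_lt _ hd⟩

/-- The helper coordinate of level `q`. -/
def hp (d : ℕ) (hd : 0 < d) (q : ℕ) : Fin d := ⟨q % d, Nat.mod_lt _ hd⟩

theorem sp_ne_hp (d : ℕ) (hd : 2 ≤ d) (q : ℕ) :
    sp d (by omega) q ≠ hp d (by omega) q := by
  intro h
  have h1 : (q + 1) % d = q % d := congrArg Fin.val h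
  have h2 : q + 1 ≡ q + 0 [MOD d] := h1
  have h3 : 1 ≡ 0 [MOD d] := Nat.ModEq.add_left_cancel' q h2
  have h4 : 1 % d = 0 % d := h3
  rw [Nat.mod_eq_of_lt (by omega), Nat.zero_mod] at h4
  exact one_ne_zero h4

/-- The positions that must vanish. -/
def Zp (d : ℕ) (hd : 0 < d) (r : ℕ) (z : Fin d → Fin r) : Prop :=
  (¬ ∀ s t, z s = z t) ∧ ∃ x : Fin r, (∀ t, z t ≤ x) ∧ z (sp d hd x) = x

/-- The weights. -/
def wt (d : ℕ) (hd : 0 < d) (r : ℕ) (t : Fin d) (q : Fin r) : ℤ :=
  (((d : ℤ) - 1) ^ 2 + 1) ^ (q : ℕ)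
    - if t = sp d hd q then (d : ℤ) * (((d : ℤ) - 1) ^ 2 + 1) ^ (q : ℕ) else 0

theorem wt_zero (d : ℕ) (hd : 0 < d) (r : ℕ) (q : Fin r) : ∑ t, wt d hd r t q = 0 := by
  unfold wt
  rw [Finset.sum_sub_distrib, Finset.sum_ite_eq' Finset.univ (sp d hd q)]
  simp

theorem wt_pos (d : ℕ) (hd : 0 < d) (r : ℕ) (z : Fin d → Fin r) (hz : ¬ Zp d hd r z)
    (hnd : ¬ ∀ s t, z s = z t) : 1 ≤ ∑ t, wt d hd r t (z t) := by
  classical
  haveI : Nonempty (Fin d) := ⟨⟨0, hd⟩⟩
  obtain ⟨t1, -, ht1⟩ := Finset.exists_max_image Finset.univ z Finset.univ_nonempty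
  have hmax : ∀ t, z t ≤ z t1 := fun t => ht1 t (Finset.mem_univ t)
  have hsp : z (sp d hd (z t1)) ≠ z t1 := by
    intro h
    exact hz ⟨hnd, z t1, hmax, h⟩
  have hlt : z (sp d hd (z t1)) < z t1 := lt_of_le_of_ne (hmax _) hsp
  obtain ⟨k, hk⟩ : ∃ k : ℕ, ((z t1 : Fin r) : ℕ) = k + 1 := by
    have : ((z (sp d hd (z t1)) : Fin r) : ℕ) < (z t1 : Fin r) := hlt
    exact ⟨(z t1 : ℕ) - 1, by omega⟩
  set B : ℤ := ((d : ℤ) - 1) ^ 2 + 1 with hB
  have hd1 : (1 : ℤ) ≤ d := by exact_mod_cast hd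
  have hB1 : (1 : ℤ) ≤ B := by nlinarith [sq_nonneg ((d : ℤ) - 1)]
  have hlow : ∀ t, -((d : ℤ) - 1) * B ^ k ≤ wt d hd r t (z t) := by
    intro t
    have hBk : 0 ≤ B ^ k := by positivity
    rcases eq_or_lt_of_le (hmax t) with he | hl
    · have hne : t ≠ sp d hd (z t) := by
        intro h
        rw [he] at h
        apply hsp
        rw [← h, he]
      unfold wt
      rw [if_neg hne, sub_zero]
      have : 0 ≤ B ^ ((z t : Fin r) : ℕ) := by positivity
      have h2 : -((d : ℤ) - 1) * B ^ k ≤ 0 := by nlinarith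
      linarith
    · have hle : ((z t : Fin r) : ℕ) ≤ k := by
        have : ((z t : Fin r) : ℕ) < (z t1 : Fin r) := hl
        omega
      have hpow : B ^ ((z t : Fin r) : ℕ) ≤ B ^ k := pow_le_pow_right₀ hB1 hle
      have hp0 : 0 ≤ B ^ ((z t : Fin r) : ℕ) := by positivity
      unfold wt
      split_ifs
      · nlinarith
      · rw [sub_zero]; nlinarith
  have ht1w : wt d hd r t1 (z t1) = B ^ (k + 1) := by
    have hne : t1 ≠ sp d hd (z t1) := by
      intro h
      apply hsp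
      rw [← h]
    unfold wt
    rw [if_neg hne, sub_zero, hk]
  rw [← Finset.add_sum_erase Finset.univ _ (Finset.mem_univ t1), ht1w]
  have hsum : (Finset.univ.erase t1).card • (-((d : ℤ) - 1) * B ^ k)
      ≤ ∑ t ∈ Finset.univ.erase t1, wt d hd r t (z t) :=
    Finset.card_nsmul_le_sum _ _ _ fun t _ => hlow t
  have hcard : (Finset.univ.erase t1).card = d - 1 := by
    rw [Finset.card_erase_of_mem (Finset.mem_univ _), Finset.card_univ, Fintype.card_fin]
  rw [hcard, nsmul_eq_mul] at hsum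
  have hcast : ((d - 1 : ℕ) : ℤ) = (d : ℤ) - 1 := by
    push_cast [Nat.cast_sub hd]; ring
  rw [hcast] at hsum
  have hBk1 : 1 ≤ B ^ k := one_le_pow₀ hB1
  have : B ^ (k + 1) + ((d : ℤ) - 1) * (-((d : ℤ) - 1) * B ^ k) = B ^ k := by
    rw [pow_succ, hB]; ring
  linarith

/-- The box of keys at level `M` for the helper `t`. -/
def box (d : ℕ) (hd : 0 < d) (r : ℕ) (hr : 0 < r) (t : Fin d) (M : Fin r) :
    Finset (Fin d → Fin r) :=
  Fintype.piFinset fun u => if u = t then {(⟨0, hr⟩ : Fin r)} else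
    if u = sp d hd M then {M} else Finset.Iic M

theorem card_box (d : ℕ) (hd : 0 < d) (r : ℕ) (hr : 0 < r) (t : Fin d) (M : Fin r)
    (hne : sp d hd M ≠ t) : (box d hd r hr t M).card = ((M : ℕ) + 1) ^ (d - 2) := by
  classical
  unfold box
  rw [Fintype.card_piFinset]
  rw [← Finset.mul_prod_erase Finset.univ _ (Finset.mem_univ t)]
  rw [← Finset.mul_prod_erase (Finset.univ.erase t) _
    (Finset.mem_erase.2 ⟨hne, Finset.mem_univ (sp d hd M)⟩)]
  rw [if_pos rfl, if_neg hne, if_pos rfl, Finset.card_singleton, Finset.card_singleton, one_mul,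
    one_mul]
  rw [Finset.prod_congr rfl (g := fun _ => (M : ℕ) + 1)]
  · rw [Finset.prod_const, Finset.card_erase_of_mem (Finset.mem_erase.2 ⟨hne, Finset.mem_univ _⟩),
      Finset.card_erase_of_mem (Finset.mem_univ _), Finset.card_univ, Fintype.card_fin]
    rfl
  · intro u hu
    rw [Finset.mem_erase, Finset.mem_erase] at hu
    rw [if_neg hu.2.1, if_neg hu.1, Fin.card_Iic]

/-- All keys for the helper `t`. -/
def keys (d : ℕ) (hd : 0 < d) (r : ℕ) (hr : 0 < r) (t : Fin d) : Finset (Fin d → Fin r) :=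
  (Finset.univ.filter fun M : Fin r => hp d hd M = t).biUnion fun M => box d hd r hr t M

theorem card_keys (d : ℕ) (hd : 2 ≤ d) (r : ℕ) (hr : 0 < r) (t : Fin d) :
    (keys d (by omega) r hr t).card ≤
      ∑ M ∈ Finset.range r, (if M % d = (t : ℕ) then (M + 1) ^ (d - 2) else 0) := by
  classical
  have hd0 : 0 < d := by omega
  unfold keys
  refine Finset.card_biUnion_le.trans ?_
  rw [Finset.sum_congr rfl (g := fun M : Fin r => ((M : ℕ) + 1) ^ (d - 2))]
  · rw [Finset.sum_filter, ← Fin.sum_univ_eq_sum_range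
      (fun M => if M % d = (t : ℕ) then (M + 1) ^ (d - 2) else 0) r]
    refine le_of_eq (Finset.sum_congr rfl fun M _ => ?_)
    have : (hp d hd0 (M : ℕ) = t) ↔ (M : ℕ) % d = (t : ℕ) := by
      constructor
      · intro h; exact congrArg Fin.val h
      · intro h; exact Fin.ext h
    by_cases h : (M : ℕ) % d = (t : ℕ)
    · rw [if_pos (this.2 h), if_pos h]
    · rw [if_neg (fun h' => h (this.1 h')), if_neg h]
  · intro M hM
    rw [Finset.mem_filter] at hM
    apply card_box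
    rw [← hM.2]
    exact sp_ne_hp d hd M

theorem exists_code {α : Type*} (S : Finset α) (m : ℕ) (h : S.card ≤ m) :
    ∃ f : α → ℕ, (∀ x ∈ S, f x < m) ∧ ∀ x ∈ S, ∀ y ∈ S, f x = f y → x = y := by
  classical
  refine ⟨fun x => if hx : x ∈ S then (S.equivFin ⟨x, hx⟩ : ℕ) else 0, ?_, ?_⟩
  · intro x hx
    simp only [hx, dif_pos]
    exact lt_of_lt_of_le (S.equivFin ⟨x, hx⟩).2 h
  · intro x hx y hy hxy
    simp only [hx, hy, dif_pos] at hxy
    have := S.equivFin.injective (Fin.ext hxy)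
    exact congrArg Subtype.val this

/-- The main existence statement. -/
theorem exists_open (d n r : ℕ) (hd : 2 ≤ d) (hrn : r ≤ n)
    (hcount : ∀ t : Fin d, r + ∑ M ∈ Finset.range r,
      (if M % d = (t : ℕ) then (M + 1) ^ (d - 2) else 0) ≤ n) :
    ∃ U : Set (Tensor d n), IsOpen U ∧ U.Nonempty ∧ ∀ T ∈ U, Degenerates T (unitTensor d r) := by
  classical
  have hd0 : 0 < d := by omega
  -- the level of a position
  have hlev : ∀ z : {z : Fin d → Fin r // Zp d hd0 r z},
      ∃ x : Fin r, (∀ t, z.1 t ≤ x) ∧ z.1 (sp d hd0 x) = x := fun z => z.2.2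
  choose lev hlev1 hlev2 using hlev
  have hrpos : ∀ z : {z : Fin d → Fin r // Zp d hd0 r z}, 0 < r := fun z =>
    lt_of_le_of_lt (Nat.zero_le _) (lev z).2
  have hcode : ∀ t : Fin d, ∃ f : (Fin d → Fin r) → ℕ, ∀ hr : 0 < r,
      (∀ x ∈ keys d hd0 r hr t, f x < n - r) ∧
      ∀ x ∈ keys d hd0 r hr t, ∀ y ∈ keys d hd0 r hr t, f x = f y → x = y := by
    intro t
    by_cases hr : 0 < r
    · have h1 := card_keys d hd r hr t
      have h2 := hcount t
      obtain ⟨f, hf⟩ := exists_code (keys d hd0 r hr t) (n - r) (by omega)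
      exact ⟨f, fun _ => hf⟩
    · exact ⟨fun _ => 0, fun h => absurd h hr⟩
  choose f hf using hcode
  let key : {z : Fin d → Fin r // Zp d hd0 r z} → (Fin d → Fin r) := fun z =>
    Function.update z.1 (hp d hd0 (lev z)) ⟨0, hrpos z⟩
  have hkey : ∀ z, key z ∈ keys d hd0 r (hrpos z) (hp d hd0 (lev z)) := by
    intro z
    unfold keys
    rw [Finset.mem_biUnion]
    refine ⟨lev z, by simp, ?_⟩
    unfold box
    rw [Fintype.mem_piFinset]
    intro u
    by_cases hu : u = hp d hd0 (lev z)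
    · rw [if_pos hu]
      simp only [key]
      rw [hu, Function.update_self]
      exact Finset.mem_singleton_self _
    · rw [if_neg hu]
      simp only [key]
      rw [Function.update_of_ne hu]
      by_cases hu2 : u = sp d hd0 (lev z)
      · rw [if_pos hu2, hu2, hlev2 z]
        exact Finset.mem_singleton_self _
      · rw [if_neg hu2, Finset.mem_Iic]
        exact hlev1 z u
  refine criterion hd0 hrn (Zp d hd0 r) (wt d hd0 r) (fun z hz => hz.1) (wt_zero d hd0 r)
    (wt_pos d hd0 r) (fun z => hp d hd0 (lev z))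
    (fun z => ⟨r + f (hp d hd0 (lev z)) (key z), by
      have := (hf (hp d hd0 (lev z)) (hrpos z)).1 (key z) (hkey z)
      omega⟩) (fun z => Nat.le_add_right _ _) ?_
  intro z z' ht hl s hs
  have h1 : r + f (hp d hd0 (lev z)) (key z) = r + f (hp d hd0 (lev z')) (key z') :=
    congrArg Fin.val hl
  have h2 : f (hp d hd0 (lev z)) (key z) = f (hp d hd0 (lev z)) (key z') := by
    have h3 : f (hp d hd0 (lev z)) (key z') = f (hp d hd0 (lev z')) (key z') := by
      have ht' : hp d hd0 (lev z) = hp d hd0 (lev z') := ht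
      rw [ht']
    omega
  have hk' : key z' ∈ keys d hd0 r (hrpos z) (hp d hd0 (lev z)) := by
    have ht' : hp d hd0 (lev z) = hp d hd0 (lev z') := ht
    rw [ht']
    exact hkey z'
  have h4 : key z = key z' := (hf _ (hrpos z)).2 _ (hkey z) _ hk' h2
  have h5 := congrFun h4 s
  simp only [key] at h5
  have ht' : hp d hd0 (lev z) = hp d hd0 (lev z') := ht
  have hs' : s ≠ hp d hd0 (lev z') := by rw [← ht']; exact hs
  rw [Function.update_of_ne hs, Function.update_of_ne hs'] at h5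
  exact h5

end Pool.Agent.TH624.BS
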