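import Pool.Agent.TH624.BS.UDefs

namespace Pool.Agent.TH624.BS

open Filter Topology

/-- The number of leading indices of a subspace is at least its dimension. -/
theorem lead_card {r : ℕ} (g : Equiv.Perm (Fin r)) (F : Submodule ℂ (Fin r → ℂ))
    (I : Finset (Fin r)) (hI : ∀ j, (∃ v ∈ F, (∀ i, g i < g j → v i = 0) ∧ v j ≠ 0) → j ∈ I) :
    Module.finrank ℂ F ≤ I.card := by
  classical
  let φ : F →ₗ[ℂ] (I → ℂ) :=
    { toFun := fun v j => v.1 j.1
      map_add' := fun v w => rfl
      map_smul' := fun c v => rfl }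
  have hinj : Function.Injective φ := by
    rw [← LinearMap.ker_eq_bot, LinearMap.ker_eq_bot']
    intro v hv
    by_contra hne
    have hne' : v.1 ≠ 0 := fun h => hne (Subtype.ext h)
    obtain ⟨j0, hj0⟩ := Function.ne_iff.1 hne'
    obtain ⟨j, hj, hmin⟩ := Finset.exists_min_image (Finset.univ.filter fun j => v.1 j ≠ 0) g
      ⟨j0, by simpa using hj0⟩
    rw [Finset.mem_filter] at hj
    have hmem : j ∈ I := by
      refine hI j ⟨v.1, v.2, fun i hi => ?_, hj.2⟩
      by_contra hvi
      have := hmin i (by simpa using hvi)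
      exact absurd hi (not_lt.2 this)
    have := congrFun hv ⟨j, hmem⟩
    exact hj.2 this
  have := LinearMap.finrank_le_finrank_of_injective hinj
  simpa using this

theorem exists_top {r : ℕ} (R : Fin r → Fin r → Prop) (hR1 : ∀ a b, R a b ∨ R b a)
    (hR2 : ∀ a b c, R a b → R b c → R a c) (s : Finset (Fin r)) (hs : s.Nonempty) :
    ∃ q ∈ s, ∀ q' ∈ s, R q' q := by
  classical
  induction hs using Finset.Nonempty.cons_induction with
  | singleton a =>
    refine ⟨a, Finset.mem_singleton_self a, fun q' hq' => ?_⟩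
    rw [Finset.mem_singleton] at hq'
    subst hq'
    exact (hR1 q' q').elim id id
  | cons a s ha hs ih =>
    obtain ⟨q, hq, hq2⟩ := ih
    rcases hR1 a q with h | h
    · refine ⟨q, Finset.mem_cons.2 (Or.inr hq), fun q' hq' => ?_⟩
      rcases Finset.mem_cons.1 hq' with rfl | h'
      · exact h
      · exact hq2 q' h'
    · refine ⟨a, Finset.mem_cons_self a s, fun q' hq' => ?_⟩
      rcases Finset.mem_cons.1 hq' with rfl | h'
      · exact (hR1 q' q').elim id id
      · exact hR2 _ _ _ (hq2 q' h') h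

theorem lead_perm {r : ℕ} (g : Equiv.Perm (Fin r)) (W : Fin r → Fin r → ℂ)
    (hW : LinearIndependent ℂ W)
    (R : Fin r → Fin r → Prop) (hR1 : ∀ a b, R a b ∨ R b a)
    (hR2 : ∀ a b c, R a b → R b c → R a c) :
    ∃ π : Equiv.Perm (Fin r), ∀ j, ∃ c : Fin r → ℂ, (∀ q, ¬ R q (π j) → c q = 0) ∧
      (∀ i, g i < g j → ∑ q, c q * W q i = 0) ∧ ∑ q, c q * W q j ≠ 0 := by
  classical
  let F : Fin r → Submodule ℂ (Fin r → ℂ) := fun q => Submodule.span ℂ (W '' {q' | R q' q})
  let I : Fin r → Finset (Fin r) := fun q =>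
    Finset.univ.filter fun j => ∃ v ∈ F q, (∀ i, g i < g j → v i = 0) ∧ v j ≠ 0
  have hFI : ∀ q, Module.finrank ℂ (F q) ≤ (I q).card := fun q =>
    lead_card g (F q) (I q) fun j hj => by simpa [I] using hj
  have hdim : ∀ q, (Finset.univ.filter fun q' => R q' q).card = Module.finrank ℂ (F q) := by
    intro q
    have h1 : LinearIndependent ℂ (fun x : {q' // R q' q} => W x.1) :=
      hW.comp _ Subtype.val_injective
    have h2 := finrank_span_eq_card h1
    have h3 : Set.range (fun x : {q' // R q' q} => W x.1) = W '' {q' | R q' q} := by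
      ext v
      constructor
      · rintro ⟨x, rfl⟩; exact ⟨x.1, x.2, rfl⟩
      · rintro ⟨x, hx, rfl⟩; exact ⟨⟨x, hx⟩, rfl⟩
    rw [h3] at h2
    rw [Fintype.card_subtype] at h2
    exact h2.symm
  have hall : ∀ s : Finset (Fin r), s.card ≤ (s.biUnion I).card := by
    intro s
    rcases s.eq_empty_or_nonempty with rfl | hs
    · simp
    · obtain ⟨q, hq, hq2⟩ := exists_top R hR1 hR2 s hs
      calc s.card ≤ (Finset.univ.filter fun q' => R q' q).card := by
            apply Finset.card_le_card
            intro x hx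
            simpa using hq2 x hx
        _ = Module.finrank ℂ (F q) := hdim q
        _ ≤ (I q).card := hFI q
        _ ≤ (s.biUnion I).card := Finset.card_le_card (Finset.subset_biUnion_of_mem I hq)
  obtain ⟨f, hf, hfI⟩ := (Finset.all_card_le_biUnion_card_iff_exists_injective I).1 hall
  have hbij : Function.Bijective f := Finite.injective_iff_bijective.1 hf
  let e : Equiv.Perm (Fin r) := Equiv.ofBijective f hbij
  refine ⟨e.symm, fun j => ?_⟩
  have h1 : f (e.symm j) = j := e.apply_symm_apply j
  have h2 := hfI (e.symm j)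
  rw [h1] at h2
  simp only [I, Finset.mem_filter, Finset.mem_univ, true_and] at h2
  obtain ⟨v, hv, hv1, hv2⟩ := h2
  have hcoef : ∀ v ∈ F (e.symm j), ∃ c : Fin r → ℂ, (∀ q, ¬ R q (e.symm j) → c q = 0) ∧
      ∀ i, ∑ q, c q * W q i = v i := by
    intro v hv
    induction hv using Submodule.span_induction with
    | mem x hx =>
      obtain ⟨q0, hq0, rfl⟩ := hx
      refine ⟨fun q => if q = q0 then 1 else 0, fun q hq => if_neg ?_, fun i => by simp⟩
      rintro rfl
      exact hq hq0
    | zero => exact ⟨fun _ => 0, fun _ _ => rfl, fun i => by simp⟩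
    | add x y _ _ hx hy =>
      obtain ⟨c1, h1, h1'⟩ := hx
      obtain ⟨c2, h2, h2'⟩ := hy
      refine ⟨fun q => c1 q + c2 q, fun q hq => by
        show c1 q + c2 q = 0
        rw [h1 q hq, h2 q hq, add_zero], fun i => ?_⟩
      simp only [add_mul, Finset.sum_add_distrib, h1', h2', Pi.add_apply]
    | smul a x _ hx =>
      obtain ⟨c1, h1, h1'⟩ := hx
      refine ⟨fun q => a * c1 q, fun q hq => by
        show a * c1 q = 0
        rw [h1 q hq, mul_zero], fun i => ?_⟩
      simp only [mul_assoc, ← Finset.mul_sum, h1', Pi.smul_apply, smul_eq_mul]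
  obtain ⟨c, hc1, hc2⟩ := hcoef v hv
  refine ⟨c, hc1, fun i hi => ?_, ?_⟩
  · rw [hc2]; exact hv1 i hi
  · rw [hc2]; exact hv2

theorem pieceB (d r : ℕ) (hd : 2 ≤ d) : PieceB d r := by
  classical
  intro ι F σ hσ W hW hvan P hP
  have hd0 : 0 < d := by omega
  have : NeZero d := ⟨by omega⟩
  let tl : Fin d := ⟨d - 1, by omega⟩
  let t0 : Fin d := ⟨0, hd0⟩
  have ht0l : t0 ≠ tl := by
    intro h
    have : (0 : ℕ) = d - 1 := congrArg Fin.val h
    omega
  let g : Fin d → Equiv.Perm (Fin r) := fun t => if t = tl then Fin.revPerm else Equiv.refl _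
  let R : Fin d → Fin r → Fin r → Prop := fun t q q' => ∀ᶠ k in (F : Filter ι), σ k t q ≤ σ k t q'
  have hR1 : ∀ t a b, R t a b ∨ R t b a := by
    intro t a b
    apply Ultrafilter.eventually_or.1
    exact Eventually.of_forall fun k => le_total _ _
  have hR2 : ∀ t a b c, R t a b → R t b c → R t a c := by
    intro t a b c h1 h2
    filter_upwards [h1, h2] with k hk1 hk2 using hk1.trans hk2
  have hlp := fun t => lead_perm (g t) (W t) (hW t) (R t) (hR1 t) (hR2 t)
  choose π hπ using hlp
  choose c hc1 hc2 hc3 using hπ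
  -- the diagonal positions do not tend to zero
  have hdiag : ∀ j, ¬ Tendsto (fun k => ∏ t, σ k t (π t j)) F (𝓝 0) := by
    intro j htend
    have hz : ∀ z : Fin d → Fin r, (∀ t, R t (z t) (π t j)) → ∑ i, ∏ t, W t (z t) i = 0 := by
      intro z hz
      apply hvan z
      refine squeeze_zero' (Eventually.of_forall fun k =>
        Finset.prod_nonneg fun t _ => (hσ k t (z t)).le) ?_ htend
      have : ∀ᶠ k in (F : Filter ι), ∀ t, σ k t (z t) ≤ σ k t (π t j) :=
        eventually_all.2 hz
      filter_upwards [this] with k hk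
      exact Finset.prod_le_prod (fun t _ => (hσ k t (z t)).le) fun t _ => hk t
    have hsum : ∑ i, ∏ t, (∑ q, c t j q * W t q i) = 0 := by
      have e1 : ∀ i, ∏ t, (∑ q, c t j q * W t q i)
          = ∑ z : Fin d → Fin r, (∏ t, c t j (z t)) * ∏ t, W t (z t) i := by
        intro i
        rw [Finset.prod_univ_sum, Fintype.piFinset_univ]
        exact Finset.sum_congr rfl fun z _ => Finset.prod_mul_distrib
      simp only [e1]
      rw [Finset.sum_comm]
      refine Finset.sum_eq_zero fun z _ => ?_
      rw [← Finset.mul_sum]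
      by_cases hzz : ∀ t, R t (z t) (π t j)
      · rw [hz z hzz, mul_zero]
      · push Not at hzz
        obtain ⟨t, ht⟩ := hzz
        rw [Finset.prod_eq_zero (Finset.mem_univ t) (hc1 t j (z t) ht), zero_mul]
    have hsum2 : ∑ i, ∏ t, (∑ q, c t j q * W t q i) = ∏ t, (∑ q, c t j q * W t q j) := by
      rw [Finset.sum_eq_single j]
      · intro i _ hij
        rcases lt_or_gt_of_ne hij with h | h
        · refine Finset.prod_eq_zero (Finset.mem_univ t0) (hc2 t0 j i ?_)
          have hg : g t0 = Equiv.refl _ := if_neg ht0l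
          rw [hg]
          exact h
        · refine Finset.prod_eq_zero (Finset.mem_univ tl) (hc2 tl j i ?_)
          have hg : g tl = Fin.revPerm := if_pos rfl
          rw [hg]
          exact Fin.rev_lt_rev.2 h
      · intro h; exact absurd (Finset.mem_univ _) h
    rw [hsum2] at hsum
    exact Finset.prod_ne_zero_iff.2 (fun t _ => hc3 t j) hsum
  have hbelow : ∀ j, ∃ ε : ℝ, 0 < ε ∧ ∀ᶠ k in (F : Filter ι), ε ≤ ∏ t, σ k t (π t j) := by
    intro j
    by_contra hcon
    push Not at hcon
    apply hdiag j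
    rw [Metric.tendsto_nhds]
    intro ε hε
    have h1 := hcon ε hε
    filter_upwards [h1] with k hk
    rw [Real.dist_eq, sub_zero, abs_of_nonneg (Finset.prod_nonneg fun t _ => (hσ k t _).le)]
    exact hk
  choose ε hε1 hε2 using hbelow
  let zz : Fin d → (Fin d → Fin r) → (Fin d → Fin r) := fun s i t => π t (i (t + s))
  have hzz : ∀ i, ∃ s, zz s i ∈ Finset.univ \ P := by
    intro i
    by_contra hcon
    push Not at hcon
    have h1 : ∀ s, Tendsto (fun k => ∏ t, σ k t (zz s i t)) F (𝓝 0) := by
      intro s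
      rw [← hP]
      have := hcon s
      simpa using this
    have h2 : Tendsto (fun k => ∏ s, ∏ t, σ k t (zz s i t)) F (𝓝 (∏ _s : Fin d, (0 : ℝ))) :=
      tendsto_finsetProd _ fun s _ => h1 s
    have h3 : (∏ _s : Fin d, (0 : ℝ)) = 0 := by
      rw [Finset.prod_const]
      exact zero_pow (by simp; omega)
    rw [h3] at h2
    have h4 : ∀ k, ∏ s, ∏ t, σ k t (zz s i t) = ∏ m, ∏ t, σ k t (π t (i m)) := by
      intro k
      rw [Finset.prod_comm, Finset.prod_comm (s := Finset.univ) (t := Finset.univ)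
        (f := fun m t => σ k t (π t (i m)))]
      refine Finset.prod_congr rfl fun t _ => ?_
      exact Fintype.prod_equiv (Equiv.addLeft t) _ _ fun s => rfl
    have h5 : ∀ᶠ k in (F : Filter ι), ∏ m, ε (i m) ≤ ∏ s, ∏ t, σ k t (zz s i t) := by
      have : ∀ᶠ k in (F : Filter ι), ∀ m, ε (i m) ≤ ∏ t, σ k t (π t (i m)) :=
        eventually_all.2 fun m => hε2 (i m)
      filter_upwards [this] with k hk
      rw [h4]
      exact Finset.prod_le_prod (fun m _ => (hε1 _).le) fun m _ => hk m
    have h6 : ∏ m, ε (i m) ≤ 0 := ge_of_tendsto h2 h5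
    have h7 : 0 < ∏ m, ε (i m) := Finset.prod_pos fun m _ => hε1 _
    linarith
  have hinj : ∀ s, Function.Injective (zz s) := by
    intro s i i' h
    funext u
    have h1 := congrFun h (u - s)
    simp only [zz] at h1
    have h2 := (π (u - s)).injective h1
    rwa [sub_add_cancel] at h2
  have hcov : (Finset.univ : Finset (Fin d → Fin r)) ⊆
      Finset.univ.biUnion fun s => Finset.univ.filter fun i => zz s i ∈ Finset.univ \ P := by
    intro i _
    obtain ⟨s, hs⟩ := hzz i
    exact Finset.mem_biUnion.2 ⟨s, Finset.mem_univ s, Finset.mem_filter.2 ⟨Finset.mem_univ i, hs⟩⟩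
  calc r ^ d = (Finset.univ : Finset (Fin d → Fin r)).card := by simp
    _ ≤ _ := Finset.card_le_card hcov
    _ ≤ ∑ s : Fin d, (Finset.univ.filter fun i => zz s i ∈ Finset.univ \ P).card :=
        Finset.card_biUnion_le
    _ ≤ ∑ _s : Fin d, (Finset.univ \ P).card := by
        refine Finset.sum_le_sum fun s _ => ?_
        refine Finset.card_le_card_of_injOn (zz s) (fun i hi => ?_) (hinj s).injOn
        exact (Finset.mem_filter.1 hi).2
    _ = d * (Finset.univ \ P).card := by simp

end Pool.Agent.TH624.BS
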