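import Pool.Agent.TH624.BS.UDefs

set_option autoImplicit false

/-!
# The structure of tensors which degenerate to the unit tensor (piece C)
-/

namespace Pool.Agent.TH624.BS

open Filter Topology ComplexOrder

namespace UC

open Matrix in
theorem rows_indep {r n : ℕ} (V : Matrix (Fin r) (Fin n) ℂ) (B : Matrix (Fin n) (Fin r) ℂ)
    (h : V * B = 1) : LinearIndependent ℂ (fun q => V q) := by
  have : Function.Injective V.vecMul := by
    intro x y hxy
    have h1 : x ᵥ* (V * B) = y ᵥ* (V * B) := by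
      rw [← Matrix.vecMul_vecMul, ← Matrix.vecMul_vecMul]
      exact congrArg (· ᵥ* B) hxy
    simpa [h] using h1
  exact Matrix.vecMul_injective_iff.mp this

open Matrix in
theorem svd {r n : ℕ} (A : Matrix (Fin r) (Fin n) ℂ) (hA : LinearIndependent ℂ (fun q => A q)) :
    ∃ (L : Matrix (Fin r) (Fin r) ℂ) (σ : Fin r → ℝ) (V : Matrix (Fin r) (Fin n) ℂ),
      Lᴴ * L = 1 ∧ (∀ q, 0 < σ q) ∧ V * Vᴴ = 1 ∧
        Lᴴ * A = Matrix.diagonal (fun q => (σ q : ℂ)) * V := by
  have hinj : Function.Injective A.vecMul := Matrix.vecMul_injective_iff.mpr hA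
  have hP : (A * Aᴴ).PosDef := Matrix.PosDef.mul_conjTranspose_self A hinj
  have hH := hP.1
  set U : Matrix (Fin r) (Fin r) ℂ := (hH.eigenvectorUnitary : Matrix (Fin r) (Fin r) ℂ) with hU
  have hUU : Uᴴ * U = 1 := by
    rw [hU, ← Matrix.star_eq_conjTranspose]
    exact Unitary.coe_star_mul_self _
  have hUU' : U * Uᴴ = 1 := by
    rw [hU, ← Matrix.star_eq_conjTranspose]
    exact Unitary.coe_mul_star_self _
  have hpos : ∀ q, 0 < hH.eigenvalues q := fun q => hP.eigenvalues_pos q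
  have hspec : Uᴴ * (A * Aᴴ) * U = Matrix.diagonal (fun q => (hH.eigenvalues q : ℂ)) := by
    have h1 := hH.conjStarAlgAut_star_eigenvectorUnitary
    rw [Unitary.conjStarAlgAut_star_apply] at h1
    rw [hU, ← Matrix.star_eq_conjTranspose]
    exact h1
  refine ⟨U, fun q => Real.sqrt (hH.eigenvalues q),
    Matrix.diagonal (fun q => ((Real.sqrt (hH.eigenvalues q))⁻¹ : ℂ)) * (Uᴴ * A), hUU,
    fun q => Real.sqrt_pos.mpr (hpos q), ?_, ?_⟩
  · rw [Matrix.conjTranspose_mul, Matrix.conjTranspose_mul, Matrix.conjTranspose_conjTranspose,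
      Matrix.diagonal_conjTranspose]
    have h2 : Matrix.diagonal (fun q => ((Real.sqrt (hH.eigenvalues q))⁻¹ : ℂ)) * (Uᴴ * A) *
        (Aᴴ * U * Matrix.diagonal (star (fun q => ((Real.sqrt (hH.eigenvalues q))⁻¹ : ℂ)))) =
        Matrix.diagonal (fun q => ((Real.sqrt (hH.eigenvalues q))⁻¹ : ℂ)) *
          (Uᴴ * (A * Aᴴ) * U) *
          Matrix.diagonal (star (fun q => ((Real.sqrt (hH.eigenvalues q))⁻¹ : ℂ))) := by
      simp only [Matrix.mul_assoc]
    rw [h2, hspec, Matrix.diagonal_mul_diagonal, Matrix.diagonal_mul_diagonal, ← Matrix.diagonal_one]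
    congr 1
    funext q
    have h3 : ((Real.sqrt (hH.eigenvalues q) : ℝ) : ℂ) ≠ 0 := by
      exact_mod_cast (Real.sqrt_pos.mpr (hpos q)).ne'
    have h4 : ((hH.eigenvalues q : ℝ) : ℂ) =
        ((Real.sqrt (hH.eigenvalues q) : ℝ) : ℂ) * ((Real.sqrt (hH.eigenvalues q) : ℝ) : ℂ) := by
      rw [← Complex.ofReal_mul, Real.mul_self_sqrt (hpos q).le]
    simp only [Pi.star_apply, star_inv₀]
    rw [h4]
    have h5 : star (((Real.sqrt (hH.eigenvalues q) : ℝ) : ℂ)) =
        ((Real.sqrt (hH.eigenvalues q) : ℝ) : ℂ) := Complex.conj_ofReal _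
    rw [h5]
    field_simp
  · rw [← Matrix.mul_assoc, Matrix.diagonal_mul_diagonal]
    have h6 : (fun q => ((Real.sqrt (hH.eigenvalues q) : ℝ) : ℂ) *
        ((Real.sqrt (hH.eigenvalues q) : ℂ))⁻¹) = fun _ => (1 : ℂ) := by
      funext q
      have h3 : ((Real.sqrt (hH.eigenvalues q) : ℝ) : ℂ) ≠ 0 := by
        exact_mod_cast (Real.sqrt_pos.mpr (hpos q)).ne'
      exact mul_inv_cancel₀ h3
    rw [h6, Matrix.diagonal_one, Matrix.one_mul]

/-- the rows are orthonormal -/
def Iso {r n : ℕ} (V : Fin r → Fin n → ℂ) : Prop :=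
  ∀ q q', ∑ j, V q j * star (V q' j) = if q = q' then 1 else 0

open Matrix in
theorem iso_iff {r n : ℕ} (V : Matrix (Fin r) (Fin n) ℂ) : Iso V ↔ V * Vᴴ = 1 := by
  constructor
  · intro h
    ext q q'
    rw [Matrix.mul_apply, Matrix.one_apply]
    exact h q q'
  · intro h q q'
    have h2 := congrFun (congrFun h q) q'
    rw [Matrix.mul_apply, Matrix.one_apply] at h2
    exact h2

theorem Iso.indep {r n : ℕ} {V : Fin r → Fin n → ℂ} (h : Iso V) : LinearIndependent ℂ V :=
  rows_indep V _ ((iso_iff V).mp h)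

theorem Iso.entry_le {r n : ℕ} {V : Fin r → Fin n → ℂ} (h : Iso V) (q : Fin r)
    (j : Fin n) : ‖V q j‖ ≤ 1 := by
  have h1 := h q q
  rw [if_pos rfl] at h1
  have h2 : ∑ k, ‖V q k‖ ^ 2 = 1 := by
    have h3 : ∀ k, V q k * star (V q k) = ((‖V q k‖ ^ 2 : ℝ) : ℂ) := by
      intro k
      have := Complex.mul_conj (V q k)
      rw [Complex.normSq_eq_norm_sq] at this
      exact this
    rw [Finset.sum_congr rfl fun k _ => h3 k, ← Complex.ofReal_sum] at h1
    exact_mod_cast h1
  have h4 : ‖V q j‖ ^ 2 ≤ 1 := by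
    rw [← h2]
    exact Finset.single_le_sum (f := fun k => ‖V q k‖ ^ 2) (fun k _ => by positivity)
      (Finset.mem_univ j)
  nlinarith [norm_nonneg (V q j)]

open Matrix in
theorem svd' {r n : ℕ} (A : Fin r → Fin n → ℂ) (hA : LinearIndependent ℂ A) :
    ∃ (W : Fin r → Fin r → ℂ) (σ : Fin r → ℝ) (V : Fin r → Fin n → ℂ),
      Iso W ∧ (∀ q, 0 < σ q) ∧ Iso V ∧ ∀ q j, ∑ k, W q k * A k j = (σ q : ℂ) * V q j := by
  obtain ⟨L, σ, V, h1, h2, h3, h4⟩ := svd (Matrix.of A) hA
  refine ⟨Lᴴ, σ, V, (iso_iff _).mpr ?_, h2, (iso_iff _).mpr h3, fun q j => ?_⟩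
  · rw [Matrix.conjTranspose_conjTranspose]
    exact h1
  · have h5 := congrFun (congrFun h4 q) j
    rw [Matrix.diagonal_mul, Matrix.mul_apply] at h5
    exact h5

theorem act_act {d n r s : ℕ} (B : Fin d → Fin s → Fin r → ℂ)
    (A : Fin d → Fin r → Fin n → ℂ) (T : Tensor d n) (z : Fin d → Fin s) :
    act B (act A T) z = act (fun t q j => ∑ k, B t q k * A t k j) T z := by
  classical
  unfold act
  have h1 : ∀ j : Fin d → Fin n, ∏ t, ∑ k, B t (z t) k * A t k (j t) =
      ∑ i : Fin d → Fin r, ∏ t, B t (z t) (i t) * A t (i t) (j t) := by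
    intro j
    rw [Finset.prod_univ_sum, Fintype.piFinset_univ]
  simp only [h1, Finset.mul_sum, Finset.sum_mul]
  rw [Finset.sum_comm]
  refine Finset.sum_congr rfl fun j _ => Finset.sum_congr rfl fun i _ => ?_
  rw [Finset.prod_mul_distrib]
  ring

theorem act_scale {d n r : ℕ} (σ : Fin d → Fin r → ℂ) (V : Fin d → Fin r → Fin n → ℂ)
    (T : Tensor d n) (z : Fin d → Fin r) :
    act (fun t q j => σ t q * V t q j) T z = (∏ t, σ t (z t)) * act V T z := by
  unfold act
  rw [Finset.mul_sum]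
  refine Finset.sum_congr rfl fun j _ => ?_
  rw [Finset.prod_mul_distrib]
  ring

theorem act_unit {d r : ℕ} (hd : 0 < d) (W : Fin d → Fin r → Fin r → ℂ) (z : Fin d → Fin r) :
    act W (unitTensor d r) z = ∑ i, ∏ t, W t (z t) i := by
  classical
  unfold act unitTensor
  symm
  refine Finset.sum_of_injOn (fun i _ => i) ?_ ?_ ?_ ?_
  · intro a _ b _ hab
    exact congrFun hab ⟨0, hd⟩
  · intro a _
    simp
  · intro j _ hj
    rw [if_neg, mul_zero]
    intro h
    apply hj
    exact ⟨j ⟨0, hd⟩, by simp, funext fun t => h _ _⟩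
  · intro i _
    simp

/-- the matrix used to see that the rows are independent -/
def M {d r : ℕ} (t : Fin d) (S : Tensor d r) : Matrix (Fin r) (Fin r) ℂ :=
  Matrix.of fun q q' => S (Function.update (fun _ => q') t q)

theorem M_unit {d r : ℕ} (hd : 2 ≤ d) (t : Fin d) : M t (unitTensor d r) = 1 := by
  classical
  ext q q'
  unfold M unitTensor
  rw [Matrix.of_apply, Matrix.one_apply]
  by_cases h : q = q'
  · subst h
    simp
  · rw [if_neg h, if_neg]
    intro h1
    obtain ⟨s, hs⟩ : ∃ s : Fin d, s ≠ t := by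
      by_cases ht : t = ⟨0, by omega⟩
      · exact ⟨⟨1, by omega⟩, by rw [ht]; simp⟩
      · exact ⟨⟨0, by omega⟩, fun h => ht h.symm⟩
    have := h1 t s
    rw [Function.update_self, Function.update_of_ne hs] at this
    exact h this

theorem continuous_det {d r : ℕ} (t : Fin d) : Continuous fun S : Tensor d r => (M t S).det := by
  refine Continuous.matrix_det (continuous_matrix fun q q' => ?_)
  exact continuous_apply _

theorem indep_of_det {d n r : ℕ} (A : Fin d → Fin r → Fin n → ℂ) (T : Tensor d n) (t : Fin d)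
    (h : (M t (act A T)).det ≠ 0) : LinearIndependent ℂ (A t) := by
  classical
  rw [Fintype.linearIndependent_iff]
  intro x hx
  have h1 : Matrix.vecMul x (M t (act A T)) = 0 := by
    funext q'
    change ∑ q, x q * act A T (Function.update (fun _ => q') t q) = 0
    unfold act
    simp only [Finset.mul_sum]
    rw [Finset.sum_comm]
    refine Finset.sum_eq_zero fun j _ => ?_
    have h2 : ∀ q, x q * ((∏ u, A u (Function.update (fun _ => q') t q u) (j u)) * T j) =
        (x q * A t q (j t)) * ((∏ u ∈ Finset.univ.erase t, A u q' (j u)) * T j) := by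
      intro q
      rw [← Finset.mul_prod_erase Finset.univ _ (Finset.mem_univ t), Function.update_self]
      rw [Finset.prod_congr rfl (g := fun u => A u q' (j u)) fun u hu => by
        rw [Function.update_of_ne (Finset.ne_of_mem_erase hu)]]
      ring
    simp only [h2]
    rw [← Finset.sum_mul]
    have h3 : ∑ q, x q * A t q (j t) = 0 := by
      have := congrFun hx (j t)
      simpa [Finset.sum_apply] using this
    rw [h3, zero_mul]
  exact fun q => congrFun (Matrix.eq_zero_of_vecMul_eq_zero h h1) q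

theorem trichotomy {ι : Type} (F : Ultrafilter ι) (g : ι → ℝ) (hg : ∀ k, 0 < g k)
    (h0 : ¬ Tendsto g F (𝓝 0)) (h1 : ¬ Tendsto g F atTop) :
    ∃ c : ℝ, 0 < c ∧ Tendsto g F (𝓝 c) := by
  have h2 : Tendsto (fun k => ENNReal.ofReal (g k)) F
      (𝓝 (Ultrafilter.map (fun k => ENNReal.ofReal (g k)) F).lim) :=
    Ultrafilter.le_nhds_lim (Ultrafilter.map (fun k => ENNReal.ofReal (g k)) F)
  set c := (Ultrafilter.map (fun k => ENNReal.ofReal (g k)) F).lim with hc
  by_cases hct : c = ⊤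
  · rw [hct] at h2
    exact absurd (ENNReal.tendsto_ofReal_nhds_top.mp h2) h1
  · have h3 := (ENNReal.tendsto_toReal hct).comp h2
    have h4 : Tendsto g F (𝓝 c.toReal) := by
      refine h3.congr fun k => ?_
      exact ENNReal.toReal_ofReal (hg k).le
    refine ⟨c.toReal, ?_, h4⟩
    rcases lt_or_eq_of_le (ENNReal.toReal_nonneg (a := c)) with h5 | h5
    · exact h5
    · rw [← h5] at h4
      exact absurd h4 h0

/-- the data attached to a tensor `S` near the unit tensor -/
theorem exists_data {d n r : ℕ} (A : Fin d → Fin r → Fin n → ℂ) (T : Tensor d n)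
    (h : ∀ t, (M t (act A T)).det ≠ 0) :
    ∃ (W : Fin d → Fin r → Fin r → ℂ) (σ : Fin d → Fin r → ℝ) (V : Fin d → Fin r → Fin n → ℂ),
      (∀ t q, 0 < σ t q) ∧ (∀ t, Iso (W t)) ∧ (∀ t, Iso (V t)) ∧
      ∀ z, act W (act A T) z = ((∏ t, σ t (z t) : ℝ) : ℂ) * act V T z := by
  have h1 := fun t => svd' (A t) (indep_of_det A T t (h t))
  choose W σ V hW hσ hV hLA using h1
  refine ⟨W, σ, V, hσ, hW, hV, fun z => ?_⟩
  rw [act_act]
  have h2 : (fun (t : Fin d) (q : Fin r) (j : Fin n) => ∑ k, W t q k * A t k j) =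
      fun t q j => (σ t q : ℂ) * V t q j := by
    funext t q j
    exact hLA t q j
  rw [h2, act_scale (fun t q => (σ t q : ℂ))]
  push_cast
  rfl

theorem closed_iso {d r n : ℕ} (t : Fin d) :
    IsClosed {X : Fin d → Fin r → Fin n → ℂ | Iso (X t)} := by
  unfold Iso
  simp only [Set.ofPred_forall]
  refine isClosed_iInter fun q => isClosed_iInter fun q' => isClosed_eq ?_ continuous_const
  fun_prop

theorem tendsto_act {d n r : ℕ} {ι : Type} {F : Filter ι} {A : ι → Fin d → Fin r → Fin n → ℂ}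
    {A0 : Fin d → Fin r → Fin n → ℂ} {S : ι → Tensor d n} {S0 : Tensor d n}
    (hA : Tendsto A F (𝓝 A0)) (hS : Tendsto S F (𝓝 S0)) (z : Fin d → Fin r) :
    Tendsto (fun k => act (A k) (S k) z) F (𝓝 (act A0 S0 z)) := by
  unfold act
  refine tendsto_finsetSum _ fun j _ => ?_
  refine Tendsto.mul ?_ ?_
  · refine tendsto_finsetProd _ fun t _ => ?_
    have h1 := tendsto_pi_nhds.mp hA t
    have h2 := tendsto_pi_nhds.mp h1 (z t)
    exact tendsto_pi_nhds.mp h2 (j t)
  · exact tendsto_pi_nhds.mp hS j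

/-- a compactness statement -/
theorem exists_lim {d r n : ℕ} {ι : Type} (F : Ultrafilter ι) (X : ι → Fin d → Fin r → Fin n → ℂ)
    (h : ∀ᶠ k in F, ∀ t q j, ‖X k t q j‖ ≤ 1) : ∃ Y, Tendsto X F (𝓝 Y) := by
  obtain ⟨Y, _, hY⟩ := (isCompact_closedBall (0 : Fin d → Fin r → Fin n → ℂ) 1).ultrafilter_le_nhds'
    (Ultrafilter.map X F) (by
      rw [Ultrafilter.mem_map]
      filter_upwards [h] with k hk
      rw [Set.mem_preimage, mem_closedBall_zero_iff]
      refine (pi_norm_le_iff_of_nonneg zero_le_one).mpr fun t => ?_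
      refine (pi_norm_le_iff_of_nonneg zero_le_one).mpr fun q => ?_
      exact (pi_norm_le_iff_of_nonneg zero_le_one).mpr fun j => hk t q j)
  exact ⟨Y, hY⟩

/-- limits of logarithms of products are of the same form -/
theorem exists_log {d r : ℕ} {ι : Type} (F : Ultrafilter ι) (σ : ι → Fin d → Fin r → ℝ)
    (hσ : ∀ k t q, 0 < σ k t q) (E : (Fin d → Fin r) → Prop) (c : (Fin d → Fin r) → ℝ)
    (hc : ∀ z, E z → 0 < c z ∧ Tendsto (fun k => ∏ t, σ k t (z t)) F (𝓝 (c z))) :
    ∃ x : Fin d → Fin r → ℝ, ∀ z, E z → c z = ∏ t, Real.exp (x t (z t)) := by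
  classical
  let Φ : (Fin d → Fin r → ℝ) →ₗ[ℝ] ({z // E z} → ℝ) :=
    { toFun := fun x z => ∑ t, x t (z.1 t)
      map_add' := fun x y => by funext z; simp [Finset.sum_add_distrib]
      map_smul' := fun a x => by funext z; simp [Finset.mul_sum] }
  have hcl : IsClosed ((LinearMap.range Φ : Submodule ℝ ({z // E z} → ℝ)) : Set ({z // E z} → ℝ)) :=
    Submodule.closed_of_finiteDimensional _
  have hmem : (fun z : {z // E z} => Real.log (c z.1)) ∈
      ((LinearMap.range Φ : Submodule ℝ ({z // E z} → ℝ)) : Set ({z // E z} → ℝ)) := by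
    refine hcl.mem_of_tendsto (f := fun k => Φ (fun t q => Real.log (σ k t q))) (b := (F : Filter ι))
      ?_ (Eventually.of_forall fun k => ⟨_, rfl⟩)
    rw [tendsto_pi_nhds]
    intro z
    obtain ⟨h1, h2⟩ := hc z.1 z.2
    refine ((Real.continuousAt_log h1.ne').tendsto.comp h2).congr fun k => ?_
    change Real.log (∏ t, σ k t (z.1 t)) = ∑ t, Real.log (σ k t (z.1 t))
    exact Real.log_prod (fun t _ => (hσ k t _).ne')
  obtain ⟨x, hx⟩ := hmem
  refine ⟨x, fun z hz => ?_⟩
  have h3 : ∑ t, x t (z t) = Real.log (c z) := congrFun hx ⟨z, hz⟩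
  rw [← Real.exp_sum, h3, Real.exp_log (hc z hz).1]

end UC

open UC in
theorem pieceC (d r : ℕ) (hd : 2 ≤ d) : PieceC d r := by
  classical
  intro hB n T hT
  obtain ⟨F, hF1, hF2⟩ := mem_closure_iff_ultrafilter.mp hT
  -- the data
  have hdata : ∀ S : Tensor d r, ∃ (W : Fin d → Fin r → Fin r → ℂ) (σ : Fin d → Fin r → ℝ)
      (V : Fin d → Fin r → Fin n → ℂ), (∀ t q, 0 < σ t q) ∧
      ((Restricts T S ∧ ∀ t, (M t S).det ≠ 0) → (∀ t, Iso (W t)) ∧ (∀ t, Iso (V t)) ∧
      ∀ z, act W S z = ((∏ t, σ t (z t) : ℝ) : ℂ) * act V T z) := by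
    intro S
    by_cases h : Restricts T S ∧ ∀ t, (M t S).det ≠ 0
    · obtain ⟨⟨A, hA⟩, h2⟩ := h
      subst hA
      obtain ⟨W, σ, V, a1, a2, a3, a4⟩ := exists_data A T h2
      exact ⟨W, σ, V, a1, fun _ => ⟨a2, a3, a4⟩⟩
    · exact ⟨0, fun _ _ => 1, 0, fun _ _ => one_pos, fun h' => absurd h' h⟩
  choose W σ V hσ hG using hdata
  have hid : Tendsto (fun S : Tensor d r => S) F (𝓝 (unitTensor d r)) := hF2
  have hgood : ∀ᶠ S in (F : Filter (Tensor d r)), Restricts T S ∧ ∀ t, (M t S).det ≠ 0 := by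
    refine Eventually.and hF1 ?_
    rw [eventually_all]
    intro t
    have h1 : Tendsto (fun S : Tensor d r => (M t S).det) F (𝓝 (M t (unitTensor d r)).det) :=
      ((continuous_det t).tendsto (unitTensor d r)).comp hid
    refine h1.eventually_ne ?_
    rw [M_unit hd t, Matrix.det_one]
    exact one_ne_zero
  have hW : ∀ᶠ S in (F : Filter (Tensor d r)), ∀ t, Iso (W S t) :=
    hgood.mono fun S hS => (hG S hS).1
  have hV : ∀ᶠ S in (F : Filter (Tensor d r)), ∀ t, Iso (V S t) :=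
    hgood.mono fun S hS => (hG S hS).2.1
  have hact : ∀ z, ∀ᶠ S in (F : Filter (Tensor d r)),
      act (W S) S z = ((∏ t, σ S t (z t) : ℝ) : ℂ) * act (V S) T z := fun z =>
    hgood.mono fun S hS => (hG S hS).2.2 z
  obtain ⟨W0, hW0⟩ := exists_lim F W (hW.mono fun S hS t q j => (hS t).entry_le q j)
  obtain ⟨V0, hV0⟩ := exists_lim F V (hV.mono fun S hS t q j => (hS t).entry_le q j)
  have hW01 : ∀ t, Iso (W0 t) :=
    fun t => (closed_iso t).mem_of_tendsto hW0 (hW.mono fun S hS => hS t)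
  have hV01 : ∀ t, Iso (V0 t) :=
    fun t => (closed_iso t).mem_of_tendsto hV0 (hV.mono fun S hS => hS t)
  have hlimW : ∀ z, Tendsto (fun S => act (W S) S z) F (𝓝 (∑ i, ∏ t, W0 t (z t) i)) := by
    intro z
    rw [← act_unit (by omega) W0 z]
    exact tendsto_act hW0 hid z
  have hlimV : ∀ z, Tendsto (fun S => act (V S) T z) F (𝓝 (act V0 T z)) := by
    intro z
    exact tendsto_act hV0 tendsto_const_nhds z
  set P : Finset (Fin d → Fin r) :=
    Finset.univ.filter (fun z => Tendsto (fun S => ∏ t, σ S t (z t)) F (𝓝 0)) with hP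
  set N : Finset (Fin d → Fin r) :=
    Finset.univ.filter (fun z => Tendsto (fun S => ∏ t, σ S t (z t)) F atTop) with hN
  have hpos : ∀ (S : Tensor d r) (z : Fin d → Fin r), 0 < ∏ t, σ S t (z t) := fun S z => Finset.prod_pos fun t _ => hσ S t _
  have hE : ∀ z, ∃ c : ℝ, (z ∉ P ∧ z ∉ N) → 0 < c ∧
      Tendsto (fun S => ∏ t, σ S t (z t)) F (𝓝 c) := by
    intro z
    by_cases hz : z ∉ P ∧ z ∉ N
    · obtain ⟨c, hc1, hc2⟩ := trichotomy F (fun S => ∏ t, σ S t (z t)) (fun S => hpos S z)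
        (by simpa [hP] using hz.1) (by simpa [hN] using hz.2)
      exact ⟨c, fun _ => ⟨hc1, hc2⟩⟩
    · exact ⟨0, fun h => absurd h hz⟩
  choose c hc using hE
  obtain ⟨x, hx⟩ := exists_log F σ hσ (fun z => z ∉ P ∧ z ∉ N) c hc
  have hWind : ∀ t, LinearIndependent ℂ (W0 t) := fun t => (hW01 t).indep
  have hVind : ∀ t, LinearIndependent ℂ (V0 t) := fun t => (hV01 t).indep
  refine ⟨V0, fun t q i => Real.exp (-(x t q)) * W0 t q i, P, N, hVind, ?_, ?_, ?_⟩
  · refine hB F σ hσ W0 hWind ?_ P (fun z => by simp [hP])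
    intro z hz
    have h1 : Tendsto (fun S => act (W S) S z) F (𝓝 (((0 : ℝ) : ℂ) * act V0 T z)) := by
      refine Tendsto.congr' ((hact z).mono fun S hS => hS.symm) ?_
      exact ((Complex.continuous_ofReal.tendsto 0).comp hz).mul (hlimV z)
    have h2 := tendsto_nhds_unique (hlimW z) h1
    rw [h2]
    simp
  · intro z hz
    have hz' : Tendsto (fun S => ∏ t, σ S t (z t)) F atTop := by simpa [hN] using hz
    have h1 : Tendsto (fun S => act (V S) T z) F
        (𝓝 (((0 : ℝ) : ℂ) * (∑ i, ∏ t, W0 t (z t) i))) := by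
      refine Tendsto.congr' (f₁ := fun S => (((∏ t, σ S t (z t))⁻¹ : ℝ) : ℂ) * act (W S) S z)
        ((hact z).mono fun S hS => ?_) ?_
      · change (((∏ t, σ S t (z t))⁻¹ : ℝ) : ℂ) * act (W S) S z = act (V S) T z
        rw [hS, ← mul_assoc, ← Complex.ofReal_mul, inv_mul_cancel₀ (hpos S z).ne']
        simp
      · exact ((Complex.continuous_ofReal.tendsto 0).comp
          (tendsto_inv_atTop_zero.comp hz')).mul (hlimW z)
    have h2 := tendsto_nhds_unique (hlimV z) h1
    rw [h2]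
    simp
  · intro z hzP hzN
    obtain ⟨hc1, hc2⟩ := hc z ⟨hzP, hzN⟩
    have h1 : Tendsto (fun S => act (W S) S z) F (𝓝 (((c z : ℝ) : ℂ) * act V0 T z)) := by
      refine Tendsto.congr' ((hact z).mono fun S hS => hS.symm) ?_
      exact ((Complex.continuous_ofReal.tendsto (c z)).comp hc2).mul (hlimV z)
    have h2 := tendsto_nhds_unique (hlimW z) h1
    have h3 : ∑ i, ∏ t, ((Real.exp (-(x t (z t))) : ℝ) : ℂ) * W0 t (z t) i =
        (((c z)⁻¹ : ℝ) : ℂ) * ∑ i, ∏ t, W0 t (z t) i := by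
      rw [Finset.mul_sum]
      refine Finset.sum_congr rfl fun i _ => ?_
      rw [Finset.prod_mul_distrib, hx z ⟨hzP, hzN⟩, ← Finset.prod_inv_distrib]
      congr 1
      rw [Complex.ofReal_prod]
      refine Finset.prod_congr rfl fun t _ => ?_
      rw [Real.exp_neg]
    rw [h3, h2, ← mul_assoc, ← Complex.ofReal_mul, inv_mul_cancel₀ hc1.ne']
    simp

end Pool.Agent.TH624.BS
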