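import Pool.Agent.TH624.BS.UDefs

/-!
Piece C: the structure of tensors degenerating to the unit tensor (job 4973, helper475, seat 2).
-/

namespace Pool.Agent.TH624.BS

open Filter Topology

namespace UC2

/-- composition of restrictions -/
theorem act_mul {d n r s : ℕ} (B : Fin d → Fin s → Fin r → ℂ) (A : Fin d → Fin r → Fin n → ℂ)
    (T : Tensor d n) : act B (act A T) = act (fun t q l => ∑ i, B t q i * A t i l) T := by
  funext z
  unfold act
  have h1 : ∀ k : Fin d → Fin n, ∏ t, ∑ i, B t (z t) i * A t i (k t) =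
      ∑ j : Fin d → Fin r, (∏ t, B t (z t) (j t)) * ∏ t, A t (j t) (k t) := by
    intro k
    rw [Finset.prod_univ_sum, Fintype.piFinset_univ]
    refine Finset.sum_congr rfl fun j _ => ?_
    rw [← Finset.prod_mul_distrib]
  simp only [h1]
  simp_rw [Finset.mul_sum, Finset.sum_mul]
  rw [Finset.sum_comm]
  exact Finset.sum_congr rfl fun k _ => Finset.sum_congr rfl fun j _ => by ring

theorem act_scale {d n r : ℕ} (σ : Fin d → Fin r → ℂ) (V : Fin d → Fin r → Fin n → ℂ)
    (T : Tensor d n) (z : Fin d → Fin r) :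
    act (fun t q l => σ t q * V t q l) T z = (∏ t, σ t (z t)) * act V T z := by
  unfold act
  rw [Finset.mul_sum]
  refine Finset.sum_congr rfl fun j _ => ?_
  rw [Finset.prod_mul_distrib]
  ring

theorem act_unit {d r : ℕ} (hd : 0 < d) (W : Fin d → Fin r → Fin r → ℂ) (z : Fin d → Fin r) :
    act W (unitTensor d r) z = ∑ i, ∏ t, W t (z t) i := by
  unfold act unitTensor
  symm
  apply Finset.sum_of_injOn (e := fun (i : Fin r) (_ : Fin d) => i)
  · intro i _ j _ hij
    exact congrFun hij ⟨0, hd⟩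
  · intro i _
    exact Finset.mem_coe.2 (Finset.mem_univ _)
  · intro j _ hj
    rw [if_neg, mul_zero]
    intro h
    apply hj
    refine ⟨j ⟨0, hd⟩, Finset.mem_coe.2 (Finset.mem_univ _), ?_⟩
    funext t
    exact h _ _
  · intro i _
    rw [if_pos (fun _ _ => rfl), mul_one]

theorem tendsto_act {ι : Type} {F : Filter ι} {d n r : ℕ} {A : ι → Fin d → Fin r → Fin n → ℂ}
    {S : ι → Tensor d n} {A0 : Fin d → Fin r → Fin n → ℂ} {S0 : Tensor d n}
    (hA : Tendsto A F (𝓝 A0)) (hS : Tendsto S F (𝓝 S0)) (z : Fin d → Fin r) :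
    Tendsto (fun k => act (A k) (S k) z) F (𝓝 (act A0 S0 z)) := by
  unfold act
  refine tendsto_finsetSum _ fun j _ => ?_
  refine Tendsto.mul (tendsto_finsetProd _ fun t _ => ?_) (tendsto_pi_nhds.1 hS j)
  exact tendsto_pi_nhds.1 (tendsto_pi_nhds.1 (tendsto_pi_nhds.1 hA t) (z t)) (j t)

/-- slices of a tensor -/
def Mt {d r : ℕ} (t : Fin d) (S : Tensor d r) : Matrix (Fin r) (Fin r) ℂ :=
  fun q q' => S (Function.update (fun _ => q') t q)

theorem Mt_unit {d r : ℕ} (hd : 2 ≤ d) (t : Fin d) : Mt t (unitTensor d r) = 1 := by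
  ext q q'
  unfold Mt unitTensor
  rw [Matrix.one_apply]
  obtain ⟨s, hs⟩ : ∃ s : Fin d, s ≠ t := by
    by_cases h : t.1 = 0
    · refine ⟨⟨1, by omega⟩, fun h1 => ?_⟩
      rw [← h1] at h
      exact absurd h one_ne_zero
    · refine ⟨⟨0, by omega⟩, fun h1 => ?_⟩
      rw [← h1] at h
      exact h rfl
  by_cases hq : q = q'
  · rw [if_pos hq, if_pos]
    intro s t'
    rw [hq]
    by_cases h1 : s = t <;> by_cases h2 : t' = t <;> simp [Function.update, h1, h2]
  · rw [if_neg hq, if_neg]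
    intro h
    apply hq
    have := h t s
    rwa [Function.update_self, Function.update_of_ne hs] at this

theorem det_ev {d r : ℕ} (hd : 2 ≤ d) :
    ∀ᶠ S in 𝓝 (unitTensor d r), ∀ t : Fin d, (Mt t S).det ≠ 0 := by
  rw [eventually_all]
  intro t
  have hc : Continuous fun S : Tensor d r => (Mt t S).det := by
    apply Continuous.matrix_det
    exact continuous_matrix fun i j => continuous_apply _
  apply hc.continuousAt.eventually_ne
  show (Mt t (unitTensor d r)).det ≠ 0
  rw [Mt_unit hd, Matrix.det_one]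
  exact one_ne_zero

theorem rows {d n r : ℕ} (A : Fin d → Fin r → Fin n → ℂ) (T : Tensor d n) (t : Fin d)
    (hM : (Mt t (act A T)).det ≠ 0) : LinearIndependent ℂ (A t) := by
  rw [Fintype.linearIndependent_iff]
  intro g hg
  have h0 : Matrix.vecMul g (Mt t (act A T)) = 0 := by
    funext q'
    show ∑ q, g q * Mt t (act A T) q q' = 0
    unfold Mt act
    simp_rw [Finset.mul_sum]
    rw [Finset.sum_comm]
    refine Finset.sum_eq_zero fun j _ => ?_
    have h1 : ∀ q, ∏ s, A s (Function.update (fun _ => q') t q s) (j s) =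
        A t q (j t) * ∏ s ∈ Finset.univ.erase t, A s q' (j s) := by
      intro q
      rw [← Finset.mul_prod_erase Finset.univ _ (Finset.mem_univ t), Function.update_self]
      congr 1
      refine Finset.prod_congr rfl fun s hs => ?_
      rw [Function.update_of_ne (Finset.ne_of_mem_erase hs)]
    have h2 : ∑ q, g q * A t q (j t) = 0 := by
      have := congrFun hg (j t)
      rw [Finset.sum_apply] at this
      exact this
    calc ∑ q, g q * ((∏ s, A s (Function.update (fun _ => q') t q s) (j s)) * T j)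
        = (∑ q, g q * A t q (j t)) * ((∏ s ∈ Finset.univ.erase t, A s q' (j s)) * T j) := by
          rw [Finset.sum_mul]
          refine Finset.sum_congr rfl fun q _ => ?_
          rw [h1]
          ring
      _ = 0 := by rw [h2, zero_mul]
  intro i
  exact congrFun (Matrix.eq_zero_of_vecMul_eq_zero hM h0) i

/-- orthonormal rows -/
def Orth {m n : ℕ} (B : Fin m → Fin n → ℂ) : Prop :=
  ∀ q q', ∑ i, B q i * star (B q' i) = if q = q' then 1 else 0

theorem Orth.entry {m n : ℕ} {B : Fin m → Fin n → ℂ} (h : Orth B) (q : Fin m) (i : Fin n) :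
    ‖B q i‖ ≤ 1 := by
  have h1 := h q q
  rw [if_pos rfl] at h1
  have h2 : ∀ i, B q i * star (B q i) = ((‖B q i‖ ^ 2 : ℝ) : ℂ) := by
    intro i
    rw [Complex.star_def, Complex.mul_conj, Complex.normSq_eq_norm_sq]
  rw [Finset.sum_congr rfl fun i _ => h2 i, ← Complex.ofReal_sum, ← Complex.ofReal_one] at h1
  have h3 : ∑ i, ‖B q i‖ ^ 2 = 1 := Complex.ofReal_injective h1
  have h4 : ‖B q i‖ ^ 2 ≤ 1 := by
    rw [← h3]
    exact Finset.single_le_sum (f := fun i => ‖B q i‖ ^ 2) (fun i _ => sq_nonneg _) (Finset.mem_univ i)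
  nlinarith [norm_nonneg (B q i)]

theorem Orth.li {m n : ℕ} {B : Fin m → Fin n → ℂ} (h : Orth B) : LinearIndependent ℂ B := by
  rw [Fintype.linearIndependent_iff]
  intro g hg q'
  have h1 : ∑ i, (∑ q, g q * B q i) * star (B q' i) = 0 := by
    refine Finset.sum_eq_zero fun i _ => ?_
    have := congrFun hg i
    rw [Finset.sum_apply] at this
    have h2 : ∑ q, g q * B q i = 0 := this
    rw [h2, zero_mul]
  have h3 : ∑ i, (∑ q, g q * B q i) * star (B q' i) = ∑ q, g q * ∑ i, B q i * star (B q' i) := by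
    simp_rw [Finset.sum_mul, Finset.mul_sum]
    rw [Finset.sum_comm]
    exact Finset.sum_congr rfl fun q _ => Finset.sum_congr rfl fun i _ => by ring
  rw [h3, Finset.sum_congr rfl fun q _ => by rw [h q q']] at h1
  simpa using h1

open Matrix in
theorem orth_iff {m n : ℕ} (B : Matrix (Fin m) (Fin n) ℂ) : Orth B ↔ B * Bᴴ = 1 := by
  constructor
  · intro h
    ext q q'
    rw [mul_apply, one_apply]
    exact h q q'
  · intro h q q'
    have := congrFun (congrFun h q) q'
    rw [mul_apply, one_apply] at this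
    exact this

open Matrix ComplexOrder in
/-- singular value decomposition of a matrix with independent rows -/
theorem svd {r n : ℕ} (A : Matrix (Fin r) (Fin n) ℂ) (hA : LinearIndependent ℂ A.row) :
    ∃ (B : Matrix (Fin r) (Fin r) ℂ) (σ : Fin r → ℝ) (V : Matrix (Fin r) (Fin n) ℂ),
      B * Bᴴ = 1 ∧ V * Vᴴ = 1 ∧ (∀ q, 0 < σ q) ∧ B * A = diagonal (fun q => ((σ q : ℝ) : ℂ)) * V := by
  have hpd : (A * Aᴴ).PosDef := Matrix.PosDef.mul_conjTranspose_self A (vecMul_injective_iff.2 hA)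
  have hH : (A * Aᴴ).IsHermitian := hpd.1
  have hpos : ∀ q, 0 < hH.eigenvalues q := fun q => hpd.eigenvalues_pos q
  set B : Matrix (Fin r) (Fin r) ℂ := (star (hH.eigenvectorUnitary : Matrix (Fin r) (Fin r) ℂ)) with hBd
  have hB1 : B * Bᴴ = 1 := by
    rw [hBd, ← star_eq_conjTranspose, star_star]
    exact Unitary.coe_star_mul_self hH.eigenvectorUnitary
  have hdiag : B * (A * Aᴴ) * Bᴴ = diagonal (fun q => ((hH.eigenvalues q : ℝ) : ℂ)) := by
    have h := hH.conjStarAlgAut_star_eigenvectorUnitary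
    rw [Unitary.conjStarAlgAut_star_apply] at h
    rw [hBd, ← star_eq_conjTranspose, star_star]
    exact h
  refine ⟨B, fun q => Real.sqrt (hH.eigenvalues q),
    diagonal (fun q => (((Real.sqrt (hH.eigenvalues q))⁻¹ : ℝ) : ℂ)) * (B * A), hB1, ?_,
    fun q => Real.sqrt_pos.2 (hpos q), ?_⟩
  · rw [conjTranspose_mul, conjTranspose_mul, diagonal_conjTranspose]
    have e1 : diagonal (fun q => (((Real.sqrt (hH.eigenvalues q))⁻¹ : ℝ) : ℂ)) * (B * A) *
        (Aᴴ * Bᴴ * diagonal (star fun q => (((Real.sqrt (hH.eigenvalues q))⁻¹ : ℝ) : ℂ))) =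
        diagonal (fun q => (((Real.sqrt (hH.eigenvalues q))⁻¹ : ℝ) : ℂ)) * (B * (A * Aᴴ) * Bᴴ) *
          diagonal (star fun q => (((Real.sqrt (hH.eigenvalues q))⁻¹ : ℝ) : ℂ)) := by
      simp only [Matrix.mul_assoc]
    rw [e1, hdiag, diagonal_mul_diagonal, diagonal_mul_diagonal, ← diagonal_one]
    congr 1
    funext q
    have h1 : (0 : ℝ) < Real.sqrt (hH.eigenvalues q) := Real.sqrt_pos.2 (hpos q)
    have h2 : hH.eigenvalues q = Real.sqrt (hH.eigenvalues q) * Real.sqrt (hH.eigenvalues q) :=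
      (Real.mul_self_sqrt (hpos q).le).symm
    have h3 : (star fun q => (((Real.sqrt (hH.eigenvalues q))⁻¹ : ℝ) : ℂ)) q =
        (((Real.sqrt (hH.eigenvalues q))⁻¹ : ℝ) : ℂ) := by
      rw [Pi.star_apply, Complex.star_def, Complex.conj_ofReal]
    rw [h3, ← Complex.ofReal_mul, ← Complex.ofReal_mul, ← Complex.ofReal_one]
    congr 1
    nth_rw 2 [h2]
    field_simp
  · rw [← Matrix.mul_assoc (diagonal _), diagonal_mul_diagonal]
    have e2 : (fun q => ((Real.sqrt (hH.eigenvalues q) : ℝ) : ℂ) *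
        (((Real.sqrt (hH.eigenvalues q))⁻¹ : ℝ) : ℂ)) = fun _ => 1 := by
      funext q
      rw [← Complex.ofReal_mul, mul_inv_cancel₀ (Real.sqrt_pos.2 (hpos q)).ne', Complex.ofReal_one]
    rw [e2, diagonal_one, Matrix.one_mul]

/-- the data attached to a tensor -/
theorem data {d n r : ℕ} (T : Tensor d n) (S : Tensor d r) :
    ∃ (B : Fin d → Fin r → Fin r → ℂ) (σ : Fin d → Fin r → ℝ) (V : Fin d → Fin r → Fin n → ℂ),
      (∀ t q, 0 < σ t q) ∧ (∀ t, Orth (B t)) ∧ (∀ t q i, ‖V t q i‖ ≤ 1) ∧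
      (Restricts T S → (∀ t, (Mt t S).det ≠ 0) → (∀ t, Orth (V t)) ∧
        ∀ z, act B S z = ((∏ t, σ t (z t) : ℝ) : ℂ) * act V T z) := by
  classical
  by_cases h : Restricts T S ∧ ∀ t, (Mt t S).det ≠ 0
  · obtain ⟨⟨A, rfl⟩, hM⟩ := h
    have h1 : ∀ t, LinearIndependent ℂ (A t) := fun t => rows A T t (hM t)
    choose B σ V hB hV hσ hBA using fun t => svd (Matrix.of (A t)) (h1 t)
    refine ⟨B, σ, V, hσ, fun t => (orth_iff _).2 (hB t), fun t q i => ((orth_iff _).2 (hV t)).entry q i,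
      fun _ _ => ⟨fun t => (orth_iff _).2 (hV t), fun z => ?_⟩⟩
    have e : (fun (t : Fin d) (q : Fin r) (l : Fin n) => ∑ i, B t q i * A t i l) =
        fun t q l => ((σ t q : ℝ) : ℂ) * V t q l := by
      funext t q l
      have := congrFun (congrFun (hBA t) q) l
      rw [Matrix.mul_apply, Matrix.diagonal_mul] at this
      exact this
    have e3 := congrFun (act_mul (fun t q i => B t q i) A T) z
    have e4 := act_scale (fun t q => ((σ t q : ℝ) : ℂ)) (fun t q i => V t q i) T z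
    have e5 : ((∏ t, σ t (z t) : ℝ) : ℂ) = ∏ t, ((σ t (z t) : ℝ) : ℂ) := by
      push_cast
      rfl
    rw [e5]
    refine Eq.trans e3 ?_
    rw [e]
    exact e4
  · refine ⟨fun _ q i => if q = i then 1 else 0, fun _ _ => 1, fun _ _ _ => 0, fun _ _ => one_pos,
      fun t q q' => ?_, fun _ _ _ => by simp, fun h1 h2 => absurd ⟨h1, h2⟩ h⟩
    by_cases hq : q = q'
    · subst hq
      simp
    · rw [if_neg hq]
      refine Finset.sum_eq_zero fun i _ => ?_
      show (if q = i then (1 : ℂ) else 0) * star (if q' = i then (1 : ℂ) else 0) = 0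
      by_cases h1 : q = i
      · rw [if_neg (fun h2 : q' = i => hq (h1.trans h2.symm)), star_zero, mul_zero]
      · rw [if_neg h1, zero_mul]

theorem ult_lim {ι : Type} {X : Type} [NormedAddCommGroup X] [ProperSpace X] (F : Ultrafilter ι)
    (f : ι → X) (C : ℝ) (h : ∀ k, ‖f k‖ ≤ C) : ∃ x, Tendsto f F (𝓝 x) := by
  obtain ⟨x, -, hx⟩ := (isCompact_closedBall (0 : X) C).ultrafilter_le_nhds (F.map f) (by
    rw [le_principal_iff]
    show ∀ᶠ k in (F : Filter ι), f k ∈ Metric.closedBall 0 C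
    refine Eventually.of_forall fun k => ?_
    rw [mem_closedBall_zero_iff]
    exact h k)
  exact ⟨x, hx⟩

theorem norm3 {a b c : ℕ} (f : Fin a → Fin b → Fin c → ℂ) (h : ∀ t q i, ‖f t q i‖ ≤ 1) : ‖f‖ ≤ 1 :=
  (pi_norm_le_iff_of_nonneg zero_le_one).2 fun t =>
    (pi_norm_le_iff_of_nonneg zero_le_one).2 fun q =>
      (pi_norm_le_iff_of_nonneg zero_le_one).2 fun i => h t q i

theorem orth_lim {ι : Type} {F : Ultrafilter ι} {d r n : ℕ} {B : ι → Fin d → Fin r → Fin n → ℂ}
    {B0 : Fin d → Fin r → Fin n → ℂ} (hB : Tendsto B F (𝓝 B0)) (h : ∀ᶠ k in F, ∀ t, Orth (B k t))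
    (t : Fin d) : Orth (B0 t) := by
  intro q q'
  have he : ∀ q i, Tendsto (fun k => B k t q i) F (𝓝 (B0 t q i)) := fun q i =>
    tendsto_pi_nhds.1 (tendsto_pi_nhds.1 (tendsto_pi_nhds.1 hB t) q) i
  have h1 : Tendsto (fun k => ∑ i, B k t q i * star (B k t q' i)) F
      (𝓝 (∑ i, B0 t q i * star (B0 t q' i))) :=
    tendsto_finsetSum _ fun i _ => (he q i).mul (he q' i).star
  have h2 : Tendsto (fun k => ∑ i, B k t q i * star (B k t q' i)) F
      (𝓝 (if q = q' then 1 else 0)) := by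
    apply tendsto_const_nhds.congr'
    filter_upwards [h] with k hk
    exact (hk t q q').symm
  exact tendsto_nhds_unique h1 h2

end UC2

open UC2 in
theorem pieceC2 (d r : ℕ) (hd : 2 ≤ d) : PieceC d r := by
  intro hPB n T hT
  classical
  obtain ⟨F, hF1, hF2⟩ := mem_closure_iff_ultrafilter.1 hT
  choose B σ V hσ hB hV hgood using fun S : Tensor d r => data T S
  -- good tensors
  have hg : ∀ᶠ S in (F : Filter (Tensor d r)), (∀ t, Orth (V S t)) ∧
      ∀ z, act (B S) S z = ((∏ t, σ S t (z t) : ℝ) : ℂ) * act (V S) T z := by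
    have h1 : ∀ᶠ S in (F : Filter (Tensor d r)), Restricts T S := hF1
    have h2 : ∀ᶠ S in (F : Filter (Tensor d r)), ∀ t : Fin d, (Mt t S).det ≠ 0 := hF2 (det_ev hd)
    filter_upwards [h1, h2] with S h1 h2
    exact hgood S h1 h2
  -- limits
  obtain ⟨B0, hB0⟩ := ult_lim F B 1 fun S => norm3 _ fun t q i => (hB S t).entry q i
  obtain ⟨V0, hV0⟩ := ult_lim F V 1 fun S => norm3 _ fun t q i => hV S t q i
  have hB0o : ∀ t, Orth (B0 t) := fun t => orth_lim hB0 (Eventually.of_forall fun S => hB S) t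
  have hV0o : ∀ t, Orth (V0 t) := fun t => orth_lim hV0 (hg.mono fun S h => h.1) t
  have hid : Tendsto (fun S : Tensor d r => S) F (𝓝 (unitTensor d r)) := hF2
  have hL : ∀ z, Tendsto (fun S => act (B S) S z) F (𝓝 (∑ i, ∏ t, B0 t (z t) i)) := by
    intro z
    rw [← act_unit (by omega) B0 z]
    exact tendsto_act hB0 hid z
  have hR : ∀ z, Tendsto (fun S => act (V S) T z) F (𝓝 (act V0 T z)) := fun z =>
    tendsto_act hV0 tendsto_const_nhds z
  have hprod : ∀ (S : Tensor d r) (z : Fin d → Fin r), 0 < ∏ t, σ S t (z t) := fun S z => Finset.prod_pos fun t _ => hσ S t (z t)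
  -- finite limits
  have hfin : ∀ (z : Fin d → Fin r) (c : ℝ), Tendsto (fun S => ∏ t, σ S t (z t)) F (𝓝 c) →
      ∑ i, ∏ t, B0 t (z t) i = (c : ℂ) * act V0 T z := by
    intro z c hc
    have h1 : Tendsto (fun S => ((∏ t, σ S t (z t) : ℝ) : ℂ) * act (V S) T z) F
        (𝓝 ((c : ℂ) * act V0 T z)) :=
      ((Complex.continuous_ofReal.tendsto c).comp hc).mul (hR z)
    refine tendsto_nhds_unique (hL z) (h1.congr' ?_)
    filter_upwards [hg] with S hS
    exact (hS.2 z).symm
  set P : Finset (Fin d → Fin r) :=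
    Finset.univ.filter (fun z => Tendsto (fun S => ∏ t, σ S t (z t)) F (𝓝 0)) with hPd
  set N : Finset (Fin d → Fin r) :=
    Finset.univ.filter (fun z => Tendsto (fun S => ∏ t, σ S t (z t)) F atTop) with hNd
  have hPm : ∀ z, z ∈ P ↔ Tendsto (fun S => ∏ t, σ S t (z t)) F (𝓝 0) := fun z => by
    rw [hPd, Finset.mem_filter]
    exact ⟨fun h => h.2, fun h => ⟨Finset.mem_univ z, h⟩⟩
  have hNm : ∀ z, z ∈ N ↔ Tendsto (fun S => ∏ t, σ S t (z t)) F atTop := fun z => by
    rw [hNd, Finset.mem_filter]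
    exact ⟨fun h => h.2, fun h => ⟨Finset.mem_univ z, h⟩⟩
  -- the remaining ones
  have hE : ∀ z, z ∉ P → z ∉ N → ∃ c : ℝ, 0 < c ∧ Tendsto (fun S => ∏ t, σ S t (z t)) F (𝓝 c) := by
    intro z h1 h2
    rw [hNm, tendsto_atTop] at h2
    push Not at h2
    obtain ⟨b, hb⟩ := h2
    have hb' : ∀ᶠ S in (F : Filter (Tensor d r)), ∏ t, σ S t (z t) < b := hb
    obtain ⟨c, hc, hcl⟩ := (isCompact_Icc (a := (0 : ℝ)) (b := b)).ultrafilter_le_nhds
      (F.map fun S => ∏ t, σ S t (z t)) (by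
        rw [le_principal_iff]
        show ∀ᶠ S in (F : Filter (Tensor d r)), ∏ t, σ S t (z t) ∈ Set.Icc 0 b
        filter_upwards [hb'] with S hS
        exact ⟨(hprod S z).le, hS.le⟩)
    have hcl' : Tendsto (fun S => ∏ t, σ S t (z t)) F (𝓝 c) := hcl
    refine ⟨c, lt_of_le_of_ne hc.1 fun h => h1 ?_, hcl'⟩
    rw [hPm, h]
    exact hcl'
  choose! c hc0 hc using hE
  -- logarithms
  obtain ⟨x, hx⟩ : ∃ x : Fin d → Fin r → ℝ, ∀ z, z ∉ P → z ∉ N → ∑ t, x t (z t) = Real.log (c z) := by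
    let Λ : (Fin d → Fin r → ℝ) →ₗ[ℝ] ({z : Fin d → Fin r // z ∉ P ∧ z ∉ N} → ℝ) :=
      { toFun := fun x z => ∑ t, x t (z.1 t)
        map_add' := fun x y => by
          funext z
          show ∑ t, (x t (z.1 t) + y t (z.1 t)) = ∑ t, x t (z.1 t) + ∑ t, y t (z.1 t)
          exact Finset.sum_add_distrib
        map_smul' := fun a x => by
          funext z
          show ∑ t, a * x t (z.1 t) = a * ∑ t, x t (z.1 t)
          rw [Finset.mul_sum] }
    have hcl : IsClosed (LinearMap.range Λ : Set ({z : Fin d → Fin r // z ∉ P ∧ z ∉ N} → ℝ)) :=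
      Submodule.closed_of_finiteDimensional _
    have hmem : (fun z : {z : Fin d → Fin r // z ∉ P ∧ z ∉ N} => Real.log (c z.1)) ∈
        (LinearMap.range Λ : Set ({z : Fin d → Fin r // z ∉ P ∧ z ∉ N} → ℝ)) := by
      apply hcl.mem_of_tendsto (f := fun (S : Tensor d r) (z : {z : Fin d → Fin r // z ∉ P ∧ z ∉ N}) =>
        Real.log (∏ t, σ S t (z.1 t))) (b := (F : Filter (Tensor d r)))
      · rw [tendsto_pi_nhds]
        intro z
        exact (Real.continuousAt_log (hc0 z.1 z.2.1 z.2.2).ne').tendsto.comp (hc z.1 z.2.1 z.2.2)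
      · refine Eventually.of_forall fun S => ?_
        refine ⟨fun t q => Real.log (σ S t q), ?_⟩
        funext z
        show ∑ t, Real.log (σ S t (z.1 t)) = Real.log (∏ t, σ S t (z.1 t))
        rw [Real.log_prod fun t _ => (hσ S t (z.1 t)).ne']
    obtain ⟨x, hx⟩ := hmem
    exact ⟨x, fun z h1 h2 => congrFun hx ⟨z, h1, h2⟩⟩
  refine ⟨V0, fun t q i => ((Real.exp (-x t q) : ℝ) : ℂ) * B0 t q i, P, N, fun t => (hV0o t).li, ?_,
    ?_, ?_⟩
  · refine hPB F σ hσ B0 (fun t => (hB0o t).li) (fun z hz => ?_) P hPm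
    rw [hfin z 0 hz, Complex.ofReal_zero, zero_mul]
  · intro z hz
    rw [hNm] at hz
    have h1 : Tendsto (fun S => (((∏ t, σ S t (z t) : ℝ)⁻¹ : ℝ) : ℂ) * act (B S) S z) F
        (𝓝 (((0 : ℝ) : ℂ) * ∑ i, ∏ t, B0 t (z t) i)) :=
      ((Complex.continuous_ofReal.tendsto 0).comp (tendsto_inv_atTop_zero.comp hz)).mul (hL z)
    rw [Complex.ofReal_zero, zero_mul] at h1
    refine tendsto_nhds_unique (hR z) (h1.congr' ?_)
    filter_upwards [hg] with S hS
    have h2 : (((∏ t, σ S t (z t) : ℝ)) : ℂ) ≠ 0 := Complex.ofReal_ne_zero.2 (hprod S z).ne'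
    rw [hS.2 z, ← mul_assoc, Complex.ofReal_inv, inv_mul_cancel₀ h2, one_mul]
  · intro z h1 h2
    have h3 := hfin z (c z) (hc z h1 h2)
    have hcz := hc0 z h1 h2
    have h4 : ∀ i, ∏ t, ((Real.exp (-x t (z t)) : ℝ) : ℂ) * B0 t (z t) i =
        (((c z)⁻¹ : ℝ) : ℂ) * ∏ t, B0 t (z t) i := by
      intro i
      rw [Finset.prod_mul_distrib]
      congr 1
      rw [← Complex.ofReal_prod]
      congr 1
      rw [← Real.exp_sum, Finset.sum_neg_distrib, hx z h1 h2, Real.exp_neg, Real.exp_log hcz]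
    rw [Finset.sum_congr rfl fun i _ => h4 i, ← Finset.mul_sum, h3, ← mul_assoc, ← Complex.ofReal_mul,
      inv_mul_cancel₀ hcz.ne', Complex.ofReal_one, one_mul]

end Pool.Agent.TH624.BS
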