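import Pool.Agent.TH624.BS.UDefs
import Pool.Agent.BSR.PARAM
import Pool.Agent.BSR.MINOR

/-!
Piece D of the upper bound of the generic border subrank (helper474): the tensors with the
structure `Good` satisfy a nonzero polynomial (parameter count `BSR.PARAM.param`), so the other
tensors are dense.
-/

set_option autoImplicit false

namespace Pool.Agent.TH624.BS

open MvPolynomial

/-- linearly independent rows have an invertible maximal minor -/
theorem minor_of_linearIndependent {r n : ℕ} (V : Matrix (Fin r) (Fin n) ℂ)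
    (h : LinearIndependent ℂ (fun q => V q)) :
    ∃ J : Fin r ↪ Fin n, (V.submatrix id J).det ≠ 0 := by
  classical
  have hrank : V.rank = r := by
    have h1 : V.rank = Fintype.card (Fin r) := LinearIndependent.rank_matrix h
    rwa [Fintype.card_fin] at h1
  have hsurj : Function.Surjective V.mulVecLin := by
    rw [← LinearMap.range_eq_top]
    apply Submodule.eq_top_of_finrank_eq
    rw [Module.finrank_fin_fun]
    exact hrank
  choose b hb using fun k : Fin r => hsurj (Pi.single k 1)
  refine BSR.MINOR.exists_minor V (fun i k => b k i) ?_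
  ext a k
  have h1 := congrFun (hb k) a
  rw [Matrix.mulVecLin_apply] at h1
  rw [Matrix.one_apply]
  rw [Pi.single_apply] at h1
  exact h1

/-- the unit tensor under matrices -/
theorem act_unitT {d r : ℕ} (W : Fin d → Fin r → Fin r → ℂ) (z : Fin d → Fin r) :
    BSR.act (κ := Fin r) (ρ := Fin r) W (BSR.unitT d (Fin r)) z = ∑ l, ∏ t, W t (z t) l := by
  classical
  unfold BSR.act BSR.unitT
  simp_rw [Finset.mul_sum]
  rw [Finset.sum_comm]
  refine Finset.sum_congr rfl fun l _ => ?_
  rw [Finset.sum_eq_single (fun _ => l)]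
  · simp
  · intro i _ hi
    obtain ⟨t, ht⟩ := Function.ne_iff.1 hi
    have h0 : ∏ s, (if i s = l then (1 : ℂ) else 0) = 0 :=
      Finset.prod_eq_zero (Finset.mem_univ t) (if_neg ht)
    rw [h0, mul_zero]
  · intro h
    exact absurd (Finset.mem_univ _) h

/-- the nonzeros of a nonzero polynomial are dense -/
theorem dense_ne {d n : ℕ} (F : MvPolynomial (Fin d → Fin n) ℂ) (hF : F ≠ 0) :
    Dense {T : Tensor d n | eval T F ≠ 0} := by
  rw [dense_iff_inter_open]
  intro U hU hne
  by_contra hcon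
  apply hF
  obtain ⟨T0, hT0⟩ := hne
  obtain ⟨ε, hε, hball⟩ := Metric.isOpen_iff.1 hU T0 hT0
  refine funext_set (fun j => Metric.ball (T0 j) ε) (fun j => ?_) fun T hT => ?_
  · apply infinite_of_mem_nhds (T0 j)
    exact Metric.ball_mem_nhds _ hε
  · rw [map_zero]
    by_contra hT0
    apply hcon
    refine ⟨T, hball ?_, hT0⟩
    rw [Metric.mem_ball, dist_pi_lt_iff hε]
    intro j
    exact hT j (Set.mem_univ j)

/-- the dimension count -/
theorem count (d n r p : ℕ) (hd : 2 ≤ d) (hlt : d ^ 2 * (n + r) < r ^ (d - 1))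
    (hp : r ^ d ≤ d * p) : d * (r * n) + d * r ^ 2 < p := by
  have hr : 0 < r := by
    rcases Nat.eq_zero_or_pos r with h | h
    · subst h
      rw [zero_pow (by omega)] at hlt
      omega
    · exact h
  have h1 : r ^ d = r ^ (d - 1) * r := by
    rw [← pow_succ]
    congr 1
    omega
  have h2 : d ^ 2 * (n + r) * r < r ^ d := by
    rw [h1]
    exact Nat.mul_lt_mul_of_pos_right hlt hr
  have h3 : d * (d * (r * n) + d * r ^ 2) < d * p := by
    calc d * (d * (r * n) + d * r ^ 2) = d ^ 2 * (n + r) * r := by ring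
      _ < r ^ d := h2
      _ ≤ d * p := hp
  exact Nat.lt_of_mul_lt_mul_left h3

/-- The stronger form: the tensors with the structure `Good` satisfy a nonzero polynomial. -/
theorem exists_poly (d n r : ℕ) (hd : 2 ≤ d) (hlt : d ^ 2 * (n + r) < r ^ (d - 1)) :
    ∃ G : MvPolynomial (Fin d → Fin n) ℂ, G ≠ 0 ∧ ∀ T : Tensor d n, Good r T → eval T G = 0 := by
  classical
  have key : ∀ (P N : Finset (Fin d → Fin r)) (J : Fin d → Fin r ↪ Fin n),
      ∃ F : MvPolynomial (Fin d → Fin n) ℂ, F ≠ 0 ∧
        (r ^ d ≤ d * (Finset.univ \ P).card →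
          ∀ (T : Tensor d n) (V : Fin d → Fin r → Fin n → ℂ) (W : Fin d → Fin r → Fin r → ℂ),
            (∀ s, (Matrix.submatrix (V s : Matrix (Fin r) (Fin n) ℂ) id (J s)).det ≠ 0) →
            (∀ z ∈ N, act V T z = 0) →
            (∀ z, z ∉ P → z ∉ N → act V T z = ∑ i, ∏ t, W t (z t) i) →
            eval T F = 0) := by
    intro P N J
    by_cases hp : r ^ d ≤ d * (Finset.univ \ P).card
    · obtain ⟨F, hF0, hF⟩ := BSR.PARAM.param (Finset.univ \ P) (Finset.univ \ N) J
        (count d n r _ hd hlt hp)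
      refine ⟨F, hF0, fun _ T V W hV hN hPN => ?_⟩
      refine hF T V W hV fun z hz => ?_
      have hzP : z ∉ P := (Finset.mem_sdiff.1 hz).2
      by_cases hzN : z ∈ N
      · rw [if_neg (fun h => (Finset.mem_sdiff.1 h).2 hzN)]
        exact hN z hzN
      · rw [if_pos (Finset.mem_sdiff.2 ⟨Finset.mem_univ z, hzN⟩), act_unitT]
        exact hPN z hzP hzN
    · exact ⟨1, one_ne_zero, fun h => absurd h hp⟩
  choose F hF0 hF using key
  let G : MvPolynomial (Fin d → Fin n) ℂ :=
    ∏ x : Finset (Fin d → Fin r) × Finset (Fin d → Fin r) × (Fin d → Fin r ↪ Fin n),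
      F x.1 x.2.1 x.2.2
  have hG : G ≠ 0 := Finset.prod_ne_zero_iff.2 fun x _ => hF0 _ _ _
  refine ⟨G, hG, fun T hgood => ?_⟩
  obtain ⟨V, W, P, N, hV, hp, hN, hPN⟩ := hgood
  choose J hJ using fun t => minor_of_linearIndependent (V t) (hV t)
  show eval T G = 0
  rw [map_prod]
  exact Finset.prod_eq_zero (Finset.mem_univ (P, N, J)) (hF P N J hp T V W hJ hN hPN)

theorem pieceD (d n r : ℕ) (hd : 2 ≤ d) : PieceD d n r := by
  intro hlt
  obtain ⟨G, hG, h⟩ := exists_poly d n r hd hlt
  refine (dense_ne G hG).mono ?_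
  intro T hT hgood
  exact hT (h T hgood)

end Pool.Agent.TH624.BS
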