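import Pool.Agent.TH624.BS.UDefs

/-!
Upper bound of the generic border subrank: the dimension count (piece D, second proof).
-/

set_option autoImplicit false

namespace Pool.Agent.TH624.BS

namespace UD2

open Finset

/-! ### composition of the action -/

theorem act_act {d a b c : ℕ} (A : Fin d → Fin a → Fin b → ℂ) (B : Fin d → Fin b → Fin c → ℂ)
    (T : Tensor d c) : act A (act B T) = act (fun t i k => ∑ j, A t i j * B t j k) T := by
  funext z
  unfold act
  simp_rw [Finset.mul_sum]
  rw [Finset.sum_comm]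
  refine Finset.sum_congr rfl fun k _ => ?_
  rw [Finset.prod_univ_sum, Finset.sum_mul, Fintype.piFinset_univ]
  refine Finset.sum_congr rfl fun j _ => ?_
  rw [Finset.prod_mul_distrib]
  ring

theorem act_one {d a : ℕ} (A : Fin d → Fin a → Fin a → ℂ)
    (hA : ∀ t i k, A t i k = if i = k then 1 else 0) (T : Tensor d a) : act A T = T := by
  funext z
  unfold act
  rw [Finset.sum_eq_single z]
  · rw [Finset.prod_eq_one, one_mul]
    intro t _
    rw [hA, if_pos rfl]
  · intro j _ hj
    obtain ⟨t, ht⟩ := Function.ne_iff.1 hj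
    rw [Finset.prod_eq_zero (Finset.mem_univ t), zero_mul]
    rw [hA, if_neg (Ne.symm ht)]
  · intro h
    exact absurd (Finset.mem_univ z) h

/-! ### completing independent rows -/

theorem complete {r n : ℕ} (V : Fin r → Fin n → ℂ) (hV : LinearIndependent ℂ V) :
    ∃ (e : Fin r ↪ Fin n) (g h : Fin n → Fin n → ℂ), (∀ q, g (e q) = V q) ∧
      (∀ j i, (¬ ∃ q, e q = j) → h j i = if j = i then 1 else 0) ∧
      (∀ i k, ∑ j, h i j * g j k = if i = k then 1 else 0) := by
  classical
  let v : Fin r ⊕ Fin n → (Fin n → ℂ) := Sum.elim V (fun j => Pi.single j 1)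
  have hs : LinearIndepOn ℂ v (Set.range Sum.inl) := by
    rw [LinearIndepOn]
    have h1 : LinearIndependent ℂ (v ∘ Sum.inl) := hV
    have h2 := (linearIndependent_equiv (R := ℂ) (Equiv.ofInjective (Sum.inl : Fin r → Fin r ⊕ Fin n)
      Sum.inl_injective) (f := fun x : Set.range (Sum.inl : Fin r → Fin r ⊕ Fin n) => v x)).1
    exact h2 h1
  obtain ⟨b, -, hsb, hspan, hb⟩ := exists_linearIndepOn_extension hs (Set.subset_univ _)
  have htop : Submodule.span ℂ (v '' b) = ⊤ := by
    rw [eq_top_iff]
    have h1 : Submodule.span ℂ (Set.range (fun j : Fin n => (Pi.single j 1 : Fin n → ℂ))) = ⊤ := by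
      have := (Pi.basisFun ℂ (Fin n)).span_eq
      rw [← this]
      congr 1
      ext x
      simp [Pi.basisFun_apply]
    rw [← h1, Submodule.span_le]
    rintro _ ⟨j, rfl⟩
    exact hspan ⟨Sum.inr j, Set.mem_univ _, rfl⟩
  -- the basis
  have hcard : Nat.card b = n := by
    have hb' : LinearIndependent ℂ (fun x : b => v x) := hb
    have hr : Set.range (fun x : b => v x) = v '' b := by
      ext x; simp
    let B := Module.Basis.mk hb' (by rw [hr, htop])
    have := Module.finrank_eq_nat_card_basis B
    rw [Module.finrank_fin_fun] at this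
    exact this.symm
  -- J = the indices of unit vectors in b
  let J : Finset (Fin n) := Finset.univ.filter (fun j => Sum.inr j ∈ b)
  have hJ : r + J.card = n := by
    refine Eq.trans ?_ hcard
    have e1 : b = (Set.range (Sum.inl : Fin r → Fin r ⊕ Fin n)) ∪ (Sum.inr '' (J : Set (Fin n))) := by
      ext x
      rcases x with x | x
      · simp only [Set.mem_union, Set.mem_range, Sum.inl.injEq, exists_eq, true_or, iff_true]
        exact hsb ⟨x, rfl⟩
      · simp [J]
    have e2 : Nat.card b = b.ncard := rfl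
    rw [e2, e1, Set.ncard_union_eq]
    · rw [Set.ncard_image_of_injective _ Sum.inr_injective, Set.ncard_coe_finset,
        ← Set.image_univ, Set.ncard_image_of_injective _ Sum.inl_injective, Set.ncard_univ]
      simp
    · rw [Set.disjoint_left]
      rintro _ ⟨x, rfl⟩ ⟨y, _, hy⟩
      exact absurd hy (by simp)
  have hJc : (Jᶜ).card = r := by
    rw [Finset.card_compl, Fintype.card_fin]
    omega
  let e : Fin r ↪ Fin n := (Jᶜ.orderEmbOfFin hJc).toEmbedding
  have he : ∀ j, (∃ q, e q = j) ↔ j ∉ J := by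
    intro j
    have h1 := Finset.range_orderEmbOfFin Jᶜ hJc
    have h2 : (∃ q, e q = j) ↔ j ∈ Set.range (Jᶜ.orderEmbOfFin hJc) := Iff.rfl
    rw [h2, h1]
    simp
  let φ : Fin n → Fin r ⊕ Fin n := fun j => if h : ∃ q, e q = j then Sum.inl h.choose else Sum.inr j
  have hφe : ∀ q, φ (e q) = Sum.inl q := by
    intro q
    have hq : ∃ q', e q' = e q := ⟨q, rfl⟩
    simp only [φ]
    rw [dif_pos hq]
    congr 1
    exact e.injective hq.choose_spec
  have hφn : ∀ j, (¬ ∃ q, e q = j) → φ j = Sum.inr j := by
    intro j hj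
    simp only [φ]
    rw [dif_neg hj]
  have hφinj : Function.Injective φ := by
    intro j k hjk
    by_cases hj : ∃ q, e q = j
    · obtain ⟨q, rfl⟩ := hj
      by_cases hk : ∃ q, e q = k
      · obtain ⟨q', rfl⟩ := hk
        rw [hφe, hφe, Sum.inl.injEq] at hjk
        rw [hjk]
      · rw [hφe, hφn k hk] at hjk
        exact absurd hjk (by simp)
    · by_cases hk : ∃ q, e q = k
      · obtain ⟨q', rfl⟩ := hk
        rw [hφe, hφn j hj] at hjk
        exact absurd hjk (by simp)
      · rw [hφn j hj, hφn k hk, Sum.inr.injEq] at hjk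
        exact hjk
  have hφb : ∀ j, φ j ∈ b := by
    intro j
    by_cases hj : ∃ q, e q = j
    · obtain ⟨q, rfl⟩ := hj
      rw [hφe]
      exact hsb ⟨q, rfl⟩
    · rw [hφn j hj]
      have : j ∈ J := by
        by_contra h
        exact hj ((he j).2 h)
      simpa [J] using this
  let g : Matrix (Fin n) (Fin n) ℂ := fun j => v (φ j)
  have hg : LinearIndependent ℂ g.row := by
    have h1 : LinearIndependent ℂ (fun x : b => v x) := hb
    exact h1.comp (fun j => (⟨φ j, hφb j⟩ : b)) (fun j k hjk => hφinj (congrArg Subtype.val hjk))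
  rw [Matrix.linearIndependent_rows_iff_isUnit] at hg
  have hdet : IsUnit g.det := (Matrix.isUnit_iff_isUnit_det g).1 hg
  refine ⟨e, g, (g⁻¹ : Matrix (Fin n) (Fin n) ℂ), ?_, ?_, ?_⟩
  · intro q
    change v (φ (e q)) = V q
    rw [hφe]
    rfl
  · intro j i hj
    have h1 : (g * g⁻¹) j i = (1 : Matrix (Fin n) (Fin n) ℂ) j i := by
      rw [Matrix.mul_nonsing_inv g hdet]
    rw [Matrix.mul_apply, Finset.sum_eq_single j] at h1
    · have h2 : g j j = 1 := by
        change v (φ j) j = 1
        rw [hφn j hj]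
        simp [v]
      rw [h2, one_mul, Matrix.one_apply] at h1
      exact h1
    · intro k _ hk
      have h2 : g j k = 0 := by
        change v (φ j) k = 0
        rw [hφn j hj]
        simp [v, hk]
      rw [h2, zero_mul]
    · intro h
      exact absurd (Finset.mem_univ j) h
  · intro i k
    have h1 : (g⁻¹ * g) i k = (1 : Matrix (Fin n) (Fin n) ℂ) i k := by
      rw [Matrix.nonsing_inv_mul g hdet]
    rw [Matrix.mul_apply, Matrix.one_apply] at h1
    exact h1

/-! ### the parametrization -/

open Classical in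
/-- the matrices -/
noncomputable def hm {d r n : ℕ} (e : Fin d → (Fin r ↪ Fin n)) (H : Fin d → Fin r → Fin n → ℂ) :
    Fin d → Fin n → Fin n → ℂ :=
  fun t j i => if hj : ∃ q, e t q = j then H t hj.choose i else if j = i then 1 else 0

/-- the positions in the block -/
def InB {d r n : ℕ} (e : Fin d → (Fin r ↪ Fin n)) (j : Fin d → Fin n) : Prop :=
  ∃ z : Fin d → Fin r, j = fun t => e t (z t)

/-- the domain -/
abbrev Dom (d r n : ℕ) (P : Finset (Fin d → Fin r)) (e : Fin d → (Fin r ↪ Fin n)) : Type :=
  (Fin d → Fin r → Fin n → ℂ) × ((P → ℂ) × ((Fin d → Fin r → Fin r → ℂ) ×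
    ({j : Fin d → Fin n // ¬ InB e j} → ℂ)))

open Classical in
/-- the tensor -/
noncomputable def tm {d r n : ℕ} (P N : Finset (Fin d → Fin r)) (e : Fin d → (Fin r ↪ Fin n))
    (x : Dom d r n P e) : Tensor d n :=
  fun j => if hj : InB e j then
      (if hP : hj.choose ∈ P then x.2.1 ⟨hj.choose, hP⟩ else
        if hj.choose ∈ N then 0 else ∑ i, ∏ t, x.2.2.1 t (hj.choose t) i)
    else x.2.2.2 ⟨j, hj⟩

/-- the parametrization -/
noncomputable def Phi {d r n : ℕ} (P N : Finset (Fin d → Fin r)) (e : Fin d → (Fin r ↪ Fin n))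
    (x : Dom d r n P e) : Tensor d n := act (hm e x.1) (tm P N e x)

noncomputable instance {d r n : ℕ} (e : Fin d → (Fin r ↪ Fin n)) :
    Fintype {j : Fin d → Fin n // ¬ InB e j} := Fintype.ofFinite _

theorem hm_contDiff {d r n : ℕ} (P : Finset (Fin d → Fin r)) (e : Fin d → (Fin r ↪ Fin n))
    (t : Fin d) (j i : Fin n) :
    ContDiff ℝ 1 (fun x : Dom d r n P e => hm e x.1 t j i) := by
  unfold hm
  by_cases hj : ∃ q, e t q = j
  · simp only [dif_pos hj]
    fun_prop
  · simp only [dif_neg hj]
    exact contDiff_const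

theorem tm_contDiff {d r n : ℕ} (P N : Finset (Fin d → Fin r)) (e : Fin d → (Fin r ↪ Fin n))
    (j : Fin d → Fin n) :
    ContDiff ℝ 1 (fun x : Dom d r n P e => tm P N e x j) := by
  unfold tm
  by_cases hj : InB e j
  · simp only [dif_pos hj]
    by_cases hP : hj.choose ∈ P
    · simp only [dif_pos hP]
      fun_prop
    · simp only [dif_neg hP]
      by_cases hN : hj.choose ∈ N
      · simp only [if_pos hN]
        exact contDiff_const
      · simp only [if_neg hN]
        fun_prop
  · simp only [dif_neg hj]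
    fun_prop

theorem Phi_contDiff {d r n : ℕ} (P N : Finset (Fin d → Fin r)) (e : Fin d → (Fin r ↪ Fin n)) :
    ContDiff ℝ 1 (Phi P N e) := by
  rw [contDiff_pi]
  intro z
  unfold Phi act
  apply ContDiff.sum
  intro j _
  apply ContDiff.mul
  · apply contDiff_prod
    intro t _
    exact hm_contDiff P e t (z t) (j t)
  · exact tm_contDiff P N e j

/-! ### dimensions -/

theorem card_InB {d r n : ℕ} (e : Fin d → (Fin r ↪ Fin n)) :
    Fintype.card {j : Fin d → Fin n // ¬ InB e j} + r ^ d = n ^ d := by
  classical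
  have hinj : Function.Injective (fun (z : Fin d → Fin r) (t : Fin d) => e t (z t)) := by
    intro z w hzw
    funext t
    exact (e t).injective (congrFun hzw t)
  have h1 : Nat.card {j : Fin d → Fin n // InB e j} = r ^ d := by
    have h2 : Nat.card (Set.range (fun (z : Fin d → Fin r) (t : Fin d) => e t (z t))) = r ^ d := by
      rw [Nat.card_congr (Equiv.ofInjective _ hinj).symm]
      simp
    rw [← h2]
    apply Nat.card_congr
    apply Equiv.subtypeEquivRight
    intro j
    unfold InB
    constructor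
    · rintro ⟨z, hz⟩
      exact ⟨z, hz.symm⟩
    · rintro ⟨z, hz⟩
      exact ⟨z, hz.symm⟩
  have h3 : Nat.card {j : Fin d → Fin n // ¬ InB e j} + Nat.card {j : Fin d → Fin n // InB e j} =
      Nat.card (Fin d → Fin n) := by
    rw [Nat.card_eq_fintype_card, Nat.card_eq_fintype_card, Nat.card_eq_fintype_card,
      Fintype.card_subtype_compl]
    have := Fintype.card_subtype_le (fun j : Fin d → Fin n => InB e j)
    omega
  rw [h1, Nat.card_eq_fintype_card] at h3
  rw [h3]
  simp

set_option synthInstance.maxHeartbeats 400000 in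
theorem finrank_Dom {d r n : ℕ} (P : Finset (Fin d → Fin r)) (e : Fin d → (Fin r ↪ Fin n)) :
    Module.finrank ℝ (Dom d r n P e) =
      2 * (d * r * n + P.card + d * r * r + Fintype.card {j : Fin d → Fin n // ¬ InB e j}) := by
  simp only [Dom, Module.finrank_prod, Module.finrank_pi_fintype, Complex.finrank_real_complex,
    Finset.sum_const, Finset.card_univ, Fintype.card_fin, smul_eq_mul, Fintype.card_coe]
  ring

theorem finrank_Tensor (d n : ℕ) : Module.finrank ℝ (Tensor d n) = 2 * n ^ d := by
  simp only [Tensor, Module.finrank_pi_fintype, Complex.finrank_real_complex,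
    Finset.sum_const, Finset.card_univ, smul_eq_mul, Fintype.card_pi, Fintype.card_fin,
    Finset.prod_const]
  ring

theorem dim_lt {d r n : ℕ} (hd : 2 ≤ d) (h : d ^ 2 * (n + r) < r ^ (d - 1))
    (P : Finset (Fin d → Fin r)) (hP : r ^ d ≤ d * (Finset.univ \ P).card)
    (e : Fin d → (Fin r ↪ Fin n)) :
    Module.finrank ℝ (Dom d r n P e) < Module.finrank ℝ (Tensor d n) := by
  rw [finrank_Dom, finrank_Tensor]
  have h1 := card_InB e
  have h2 : (Finset.univ \ P).card + P.card = r ^ d := by
    rw [Finset.card_sdiff_add_card_eq_card (Finset.subset_univ P), Finset.card_univ]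
    simp
  have hr : 0 < r := by
    rcases Nat.eq_zero_or_pos r with rfl | hr
    · rw [zero_pow (by omega)] at h
      omega
    · exact hr
  have h3 : d ^ 2 * (n + r) * r < r ^ d := by
    have : r ^ d = r ^ (d - 1) * r := by
      rw [← pow_succ]
      congr 1
      omega
    rw [this]
    exact Nat.mul_lt_mul_of_pos_right h hr
  have h4 : d * (d * r * n + d * r * r) < d * (Finset.univ \ P).card := by
    refine lt_of_lt_of_le ?_ hP
    calc d * (d * r * n + d * r * r) = d ^ 2 * (n + r) * r := by ring
      _ < r ^ d := h3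
  have h5 := lt_of_mul_lt_mul_left h4 (Nat.zero_le d)
  omega

/-! ### good tensors are in a range -/

theorem good_range {d r n : ℕ} {T : Tensor d n} (hT : Good r T) :
    ∃ (P N : Finset (Fin d → Fin r)) (e : Fin d → (Fin r ↪ Fin n)),
      r ^ d ≤ d * (Finset.univ \ P).card ∧ T ∈ Set.range (Phi P N e) := by
  classical
  obtain ⟨V, W, P, N, hV, hP, hN, hW⟩ := hT
  choose e g h hg hh hgh using fun t => complete (V t) (hV t)
  refine ⟨P, N, e, hP, ?_⟩
  -- the coordinates in the block
  have key : ∀ z : Fin d → Fin r, act g T (fun t => e t (z t)) = act V T z := by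
    intro z
    unfold act
    refine Finset.sum_congr rfl fun j _ => ?_
    congr 1
    refine Finset.prod_congr rfl fun t _ => ?_
    rw [hg t (z t)]
  refine ⟨⟨fun t q i => h t (e t q) i, fun z => act V T z, W, fun j => act g T j⟩, ?_⟩
  have e1 : hm e (fun t q i => h t (e t q) i) = h := by
    funext t j i
    unfold hm
    by_cases hj : ∃ q, e t q = j
    · rw [dif_pos hj]
      change h t (e t hj.choose) i = h t j i
      rw [hj.choose_spec]
    · rw [dif_neg hj, hh t j i hj]
  have e2 : tm P N e ⟨fun t q i => h t (e t q) i, fun z => act V T z, W, fun j => act g T j⟩ =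
      act g T := by
    funext j
    unfold tm
    by_cases hj : InB e j
    · rw [dif_pos hj]
      have hz := hj.choose_spec
      set z := hj.choose with hz'
      have h3 : act g T j = act V T z := by
        rw [← key z, ← hz]
      rw [h3]
      by_cases hzP : z ∈ P
      · rw [dif_pos hzP]
      · rw [dif_neg hzP]
        by_cases hzN : z ∈ N
        · rw [if_pos hzN, hN z hzN]
        · rw [if_neg hzN, hW z hzP hzN]
    · rw [dif_neg hj]
  unfold Phi
  rw [e2]
  change act (hm e (fun t q i => h t (e t q) i)) (act g T) = T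
  rw [e1, act_act, act_one]
  intro t i k
  exact hgh t i k

end UD2

open UD2 in
theorem pieceD2 (d n r : ℕ) (hd : 2 ≤ d) : PieceD d n r := by
  classical
  intro h
  let ι := {P : Finset (Fin d → Fin r) // r ^ d ≤ d * (Finset.univ \ P).card} ×
    Finset (Fin d → Fin r) × (Fin d → (Fin r ↪ Fin n))
  let s : ι → Set (Tensor d n) := fun x => Set.range (Phi x.1.1 x.2.1 x.2.2)
  have hsub : {T : Tensor d n | Good r T} ⊆ ⋃ x, s x := by
    intro T hT
    obtain ⟨P, N, e, hP, hx⟩ := good_range hT
    exact Set.mem_iUnion.2 ⟨⟨⟨P, hP⟩, N, e⟩, hx⟩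
  by_cases hι : IsEmpty ι
  · have h1 : {T : Tensor d n | ¬ Good r T} = Set.univ := by
      rw [Set.eq_univ_iff_forall]
      intro T hT
      obtain ⟨x, -⟩ := Set.mem_iUnion.1 (hsub hT)
      exact hι.elim x
    rw [h1]
    exact dense_univ
  rw [not_isEmpty_iff] at hι
  obtain ⟨x0⟩ := hι
  have hpos : 0 < Module.finrank ℝ (Tensor d n) :=
    lt_of_le_of_lt (Nat.zero_le _) (dim_lt hd h x0.1.1 x0.1.2 x0.2.2)
  have hdim : dimH (⋃ x, s x) < Module.finrank ℝ (Tensor d n) := by
    rw [dimH_iUnion]
    refine lt_of_le_of_lt (b := ((Module.finrank ℝ (Tensor d n) - 1 : ℕ) : ENNReal)) ?_ ?_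
    · refine iSup_le fun x => ?_
      refine ((Phi_contDiff x.1.1 x.2.1 x.2.2).dimH_range_le).trans ?_
      have := dim_lt hd h x.1.1 x.1.2 x.2.2
      exact_mod_cast Nat.le_sub_one_of_lt this
    · exact_mod_cast Nat.sub_lt hpos one_pos
  exact dense_compl_of_dimH_lt_finrank (lt_of_le_of_lt (dimH_mono hsub) hdim)

end Pool.Agent.TH624.BS
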