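import Pool.Agent.TH624.BS.Defs

/-!
Interface for the upper bound of the generic border subrank.
-/

namespace Pool.Agent.TH624.BS

open Filter Topology

/-- The structure that a tensor `T` degenerating to the unit tensor has (pieces C and D). -/
def Good {d n : ℕ} (r : ℕ) (T : Tensor d n) : Prop :=
  ∃ (V : Fin d → Fin r → Fin n → ℂ) (W : Fin d → Fin r → Fin r → ℂ)
    (P N : Finset (Fin d → Fin r)),
    (∀ t, LinearIndependent ℂ (V t)) ∧
    r ^ d ≤ d * (Finset.univ \ P).card ∧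
    (∀ z ∈ N, act V T z = 0) ∧
    (∀ z, z ∉ P → z ∉ N → act V T z = ∑ i, ∏ t, W t (z t) i)

/-- Piece B (used by piece C). -/
def PieceB (d r : ℕ) : Prop :=
  ∀ {ι : Type} (F : Ultrafilter ι) (σ : ι → Fin d → Fin r → ℝ), (∀ k t q, 0 < σ k t q) →
    ∀ W : Fin d → Fin r → Fin r → ℂ, (∀ t, LinearIndependent ℂ (W t)) →
    (∀ z : Fin d → Fin r, Tendsto (fun k => ∏ t, σ k t (z t)) F (𝓝 0) →
      ∑ i, ∏ t, W t (z t) i = 0) →
    ∀ P : Finset (Fin d → Fin r),
      (∀ z, z ∈ P ↔ Tendsto (fun k => ∏ t, σ k t (z t)) F (𝓝 0)) →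
      r ^ d ≤ d * (Finset.univ \ P).card

/-- Piece C. -/
def PieceC (d r : ℕ) : Prop :=
  PieceB d r → ∀ (n : ℕ) (T : Tensor d n), Degenerates T (unitTensor d r) → Good r T

/-- Piece D. -/
def PieceD (d n r : ℕ) : Prop :=
  d ^ 2 * (n + r) < r ^ (d - 1) → Dense {T : Tensor d n | ¬ Good r T}

end Pool.Agent.TH624.BS
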