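import Pool.Agent.TH624.BS.UB
import Pool.Agent.TH624.BS.UC2
import Pool.Agent.TH624.BS.UD

namespace Pool.Agent.TH624.BS

open MvPolynomial

/-- Upper bound: tensors that degenerate to a large unit tensor satisfy a polynomial relation. -/
theorem upper_poly (d n r : ℕ) (hd : 2 ≤ d) (h : d ^ 2 * (n + r) < r ^ (d - 1)) :
    ∃ G : MvPolynomial (Fin d → Fin n) ℂ, G ≠ 0 ∧
      ∀ T : Tensor d n, Degenerates T (unitTensor d r) → eval T G = 0 := by
  obtain ⟨G, hG, hG2⟩ := exists_poly d n r hd h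
  exact ⟨G, hG, fun T hT => hG2 T (pieceC2 d r hd (pieceB d r hd) n T hT)⟩

theorem upper_generic (d n q : ℕ) (hd : 2 ≤ d) (hq : IsGenericBorderSubrank d n q) :
    q ^ (d - 1) ≤ d ^ 2 * (n + q) := by
  by_contra hcon
  obtain ⟨G, hG, hG2⟩ := upper_poly d n q hd (not_le.1 hcon)
  obtain ⟨F, hF, hF2⟩ := hq
  have hne : G * F ≠ 0 := mul_ne_zero hG hF
  apply hne
  apply MvPolynomial.funext
  intro T
  rw [map_mul, map_zero]
  by_cases hT : eval T F = 0
  · rw [hT, mul_zero]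
  · rw [hG2 T (hF2 T hT).1, zero_mul]

end Pool.Agent.TH624.BS
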